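import Mathlib

/-!
# A probability space with independent events, and slaloms
-/

set_option autoImplicit false

namespace Q163.AC

open MeasureTheory Set Filter Topology
open scoped ENNReal

/-- The events. -/
abbrev Ev := ℕ × ℕ × Bool

/-- The space. -/
abbrev Om := Ev → Bool

/-- The probability of the event `(n, m, b)`. -/
noncomputable def q (n : ℕ) : ℝ := (1 / 2) ^ (n + 5)

theorem q_pos (n : ℕ) : 0 < q n := by unfold q; positivity

theorem q_le (n : ℕ) : q n ≤ 1 / 32 := by
  unfold q
  calc (1 / 2 : ℝ) ^ (n + 5) ≤ (1 / 2) ^ 5 :=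
        pow_le_pow_of_le_one (by norm_num) (by norm_num) (by omega)
    _ = 1 / 32 := by norm_num

/-- The distribution of one coordinate. -/
noncomputable def bern (n : ℕ) : Measure Bool :=
  ENNReal.ofReal (q n) • Measure.dirac true + ENNReal.ofReal (1 - q n) • Measure.dirac false

theorem bern_true (n : ℕ) : bern n {true} = ENNReal.ofReal (q n) := by
  simp [bern]

theorem bern_false (n : ℕ) : bern n {false} = ENNReal.ofReal (1 - q n) := by
  simp [bern]

instance (n : ℕ) : IsProbabilityMeasure (bern n) := by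
  constructor
  have h := q_pos n
  have h' := q_le n
  simp only [bern, Measure.coe_add, Measure.coe_smul, Pi.add_apply, Pi.smul_apply, measure_univ,
    smul_eq_mul, mul_one]
  rw [← ENNReal.ofReal_add h.le (by linarith)]
  simp

/-- The product measure. -/
noncomputable def mu : Measure Om := Measure.infinitePi fun e : Ev => bern e.1

instance : IsProbabilityMeasure mu := by
  unfold mu
  infer_instance

/-- The cylinder of a finite set of events. -/
def Cyl (S : Finset Ev) : Set Om := {x | ∀ e ∈ S, x e = true}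

/-- The event. -/
def Ae (e : Ev) : Set Om := {x | x e = true}

theorem meas_Ae (e : Ev) : MeasurableSet (Ae e) :=
  measurableSet_eq_fun (measurable_pi_apply e) measurable_const

theorem Cyl_insert [DecidableEq Ev] (e : Ev) (S : Finset Ev) : Cyl (insert e S) = Ae e ∩ Cyl S := by
  ext x
  simp [Cyl, Ae]

theorem meas_Cyl (S : Finset Ev) : MeasurableSet (Cyl S) := by
  classical
  induction S using Finset.induction_on with
  | empty =>
    have : Cyl ∅ = univ := by ext x; simp [Cyl]
    rw [this]
    exact MeasurableSet.univ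
  | insert e S _ ih =>
    rw [Cyl_insert]
    exact (meas_Ae e).inter ih

theorem mu_Cyl (S : Finset Ev) : mu.real (Cyl S) = ∏ e ∈ S, q e.1 := by
  have h1 : Cyl S = Set.pi (S : Set Ev) (fun _ => {true}) := by
    ext x
    simp [Cyl, Set.mem_pi]
  have h2 : mu (Cyl S) = ∏ e ∈ S, ENNReal.ofReal (q e.1) := by
    rw [h1, mu, Measure.infinitePi_pi _ (fun _ _ => MeasurableSet.singleton _)]
    exact Finset.prod_congr rfl fun e _ => bern_true e.1
  rw [Measure.real, h2, ENNReal.toReal_prod]
  exact Finset.prod_congr rfl fun e _ => ENNReal.toReal_ofReal (q_pos _).le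

theorem Cyl_pos (S : Finset Ev) : 0 < mu.real (Cyl S) := by
  rw [mu_Cyl]
  exact Finset.prod_pos fun e _ => q_pos _

theorem mu_Ae (e : Ev) : mu.real (Ae e) = q e.1 := by
  have h : Ae e = Cyl {e} := by ext x; simp [Ae, Cyl]
  rw [h, mu_Cyl]
  simp

theorem mu_Ae_inter {e e' : Ev} (h : e ≠ e') : mu.real (Ae e ∩ Ae e') = q e.1 * q e'.1 := by
  classical
  have h1 : Ae e ∩ Ae e' = Cyl {e, e'} := by ext x; simp [Ae, Cyl]
  rw [h1, mu_Cyl, Finset.prod_pair h]

theorem mu_Ae_Cyl {e : Ev} {S : Finset Ev} (h : e ∉ S) :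
    mu.real (Ae e ∩ Cyl S) = q e.1 * mu.real (Cyl S) := by
  classical
  rw [← Cyl_insert, mu_Cyl, mu_Cyl, Finset.prod_insert h]

/-- The centered indicator. -/
noncomputable def hc (e : Ev) (x : Om) : ℝ := (Ae e).indicator (fun _ => (1 : ℝ)) x - q e.1

theorem meas_ind (e : Ev) : Measurable ((Ae e).indicator (fun _ => (1 : ℝ))) :=
  measurable_const.indicator (meas_Ae e)

theorem meas_hc (e : Ev) : Measurable (hc e) := (meas_ind e).sub_const _

theorem hc_bdd (e : Ev) (x : Om) : ‖hc e x‖ ≤ 1 := by
  have h := q_pos e.1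
  have h' := q_le e.1
  unfold hc
  by_cases hx : x ∈ Ae e
  · rw [indicator_of_mem hx, Real.norm_eq_abs, abs_le]
    constructor <;> linarith
  · rw [indicator_of_notMem hx, Real.norm_eq_abs, abs_le]
    constructor <;> linarith

theorem int_ind {B : Set Om} (hB : MeasurableSet B) :
    Integrable (B.indicator (fun _ => (1 : ℝ))) mu :=
  (integrable_const 1).indicator hB

theorem integral_hc_mul (e e' : Ev) :
    ∫ x, hc e x * hc e' x ∂mu = if e = e' then q e.1 - q e.1 ^ 2 else 0 := by
  have h1 : (fun x => hc e x * hc e' x) = fun x =>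
      ((Ae e ∩ Ae e').indicator (fun _ => (1 : ℝ)) x - q e.1 * (Ae e').indicator (fun _ => (1 : ℝ)) x)
        - (q e'.1 * (Ae e).indicator (fun _ => (1 : ℝ)) x - q e.1 * q e'.1) := by
    funext x
    unfold hc
    by_cases h1 : x ∈ Ae e <;> by_cases h2 : x ∈ Ae e' <;> simp [h1, h2, indicator] <;> ring
  have i1 : Integrable ((Ae e ∩ Ae e').indicator (fun _ => (1 : ℝ))) mu :=
    int_ind ((meas_Ae e).inter (meas_Ae e'))
  have i2 : Integrable (fun x => q e.1 * (Ae e').indicator (fun _ => (1 : ℝ)) x) mu :=
    (int_ind (meas_Ae e')).const_mul _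
  have i3 : Integrable (fun x => q e'.1 * (Ae e).indicator (fun _ => (1 : ℝ)) x) mu :=
    (int_ind (meas_Ae e)).const_mul _
  have j1 : Integrable (fun x => (Ae e ∩ Ae e').indicator (fun _ => (1 : ℝ)) x -
      q e.1 * (Ae e').indicator (fun _ => (1 : ℝ)) x) mu := i1.sub i2
  have j2 : Integrable (fun x => q e'.1 * (Ae e).indicator (fun _ => (1 : ℝ)) x -
      q e.1 * q e'.1) mu := i3.sub (integrable_const _)
  rw [h1, integral_sub j1 j2, integral_sub i1 i2,
    integral_sub i3 (integrable_const _), integral_const_mul, integral_const_mul, integral_const,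
    integral_indicator_const _ ((meas_Ae e).inter (meas_Ae e')),
    integral_indicator_const _ (meas_Ae e), integral_indicator_const _ (meas_Ae e')]
  simp only [smul_eq_mul, mul_one, probReal_univ, one_mul, mu_Ae]
  by_cases h : e = e'
  · subst h
    rw [if_pos rfl, inter_self, mu_Ae]
    ring
  · rw [if_neg h, mu_Ae_inter h]
    ring

/-- Bessel's inequality for independent events. -/
theorem bessel {B : Set Om} (hB : MeasurableSet B) (T : Finset Ev) {δ : ℝ} (hδ : 0 < δ)
    (h : ∀ e ∈ T, mu.real B * q e.1 + δ * q e.1 ≤ mu.real (B ∩ Ae e)) :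
    ∑ e ∈ T, q e.1 ≤ 1 / δ ^ 2 := by
  classical
  set w : ℝ := ∑ e ∈ T, q e.1 with hw
  let g : Om → ℝ := fun x => ∑ e ∈ T, hc e x
  have hgm : Measurable g := Finset.measurable_sum _ fun e _ => meas_hc e
  have hgb : ∀ x, ‖g x‖ ≤ T.card := fun x => by
    refine (norm_sum_le _ _).trans ?_
    exact (Finset.sum_le_card_nsmul _ _ 1 fun e _ => hc_bdd e x).trans (by simp)
  have hhi : ∀ e, Integrable (hc e) mu := fun e =>
    Integrable.of_bound (meas_hc e).aestronglyMeasurable 1 (ae_of_all _ (hc_bdd e))
  have hhh : ∀ e e', Integrable (fun x => hc e x * hc e' x) mu := fun e e' =>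
    Integrable.of_bound ((meas_hc e).mul (meas_hc e')).aestronglyMeasurable 1
      (ae_of_all _ fun x => by
        rw [norm_mul]
        exact mul_le_one₀ (hc_bdd e x) (norm_nonneg _) (hc_bdd e' x))
  have hg2 : ∫ x, g x ^ 2 ∂mu ≤ w := by
    have h1 : (fun x => g x ^ 2) = fun x => ∑ e ∈ T, ∑ e' ∈ T, hc e x * hc e' x := by
      funext x
      rw [sq, Finset.sum_mul_sum]
    rw [h1, integral_finsetSum _ fun e _ => integrable_finsetSum _ fun e' _ => hhh e e']
    refine Finset.sum_le_sum fun e he => ?_
    rw [integral_finsetSum _ fun e' _ => hhh e e']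
    simp only [integral_hc_mul]
    rw [Finset.sum_ite_eq, if_pos he]
    have := sq_nonneg (q e.1)
    linarith
  have hg2i : Integrable (fun x => g x ^ 2) mu :=
    Integrable.of_bound (hgm.pow_const 2).aestronglyMeasurable ((T.card : ℝ) ^ 2)
      (ae_of_all _ fun x => by
        rw [norm_pow]
        exact pow_le_pow_left₀ (norm_nonneg _) (hgb x) 2)
  have hgi : Integrable g mu := integrable_finsetSum _ fun e _ => hhi e
  -- lower bound
  have hlow : δ * w ≤ ∫ x, B.indicator g x ∂mu := by
    rw [integral_indicator hB]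
    have h1 : ∫ x in B, g x ∂mu = ∑ e ∈ T, ∫ x in B, hc e x ∂mu :=
      integral_finsetSum _ fun e _ => (hhi e).integrableOn
    rw [h1, hw, Finset.mul_sum]
    refine Finset.sum_le_sum fun e he => ?_
    have h2 : ∫ x in B, hc e x ∂mu = mu.real (B ∩ Ae e) - mu.real B * q e.1 := by
      unfold hc
      rw [integral_sub ((int_ind (meas_Ae e)).integrableOn) (integrable_const _),
        integral_indicator_const _ (meas_Ae e), setIntegral_const]
      simp only [smul_eq_mul, mul_one]
      congr 1
      rw [Measure.real, Measure.restrict_apply (meas_Ae e), inter_comm]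
      rfl
    rw [h2]
    have := h e he
    linarith
  -- upper bound
  have hup : ∫ x, B.indicator g x ∂mu ≤ δ / 2 * w + 1 / (2 * δ) := by
    have h1 : ∫ x, B.indicator g x ∂mu ≤ ∫ x, (δ / 2 * g x ^ 2 + 1 / (2 * δ)) ∂mu := by
      refine integral_mono (hgi.indicator hB) ((hg2i.const_mul _).add (integrable_const _)) fun x => ?_
      have h2 : g x ≤ δ / 2 * g x ^ 2 + 1 / (2 * δ) := by
        have h3 : 0 ≤ (δ * g x - 1) ^ 2 / (2 * δ) := by positivity
        have h4 : (δ * g x - 1) ^ 2 / (2 * δ) = δ / 2 * g x ^ 2 + 1 / (2 * δ) - g x := by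
          field_simp
          ring
        linarith
      have h5 : 0 ≤ δ / 2 * g x ^ 2 + 1 / (2 * δ) := by positivity
      by_cases hx : x ∈ B
      · show B.indicator g x ≤ _
        rw [indicator_of_mem hx]
        exact h2
      · show B.indicator g x ≤ _
        rw [indicator_of_notMem hx]
        exact h5
    refine h1.trans ?_
    rw [integral_add (hg2i.const_mul _) (integrable_const _), integral_const_mul, integral_const]
    simp only [probReal_univ, smul_eq_mul, one_mul]
    have := mul_le_mul_of_nonneg_left hg2 (by positivity : 0 ≤ δ / 2)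
    linarith
  have h3 : δ * w ≤ δ / 2 * w + 1 / (2 * δ) := hlow.trans hup
  have h4 : δ / 2 * w ≤ 1 / (2 * δ) := by linarith
  rw [le_div_iff₀ (by positivity)]
  have h5 : δ / 2 * w * (2 * δ) ≤ 1 := by
    have := mul_le_mul_of_nonneg_right h4 (by positivity : 0 ≤ 2 * δ)
    rwa [one_div, inv_mul_cancel₀ (by positivity)] at this
  nlinarith [h5]

end Q163.AC
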