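import Pool.Agent.Q163.AC.A

/-!
# Slaloms of bad events
-/

set_option autoImplicit false

namespace Q163.AC

open MeasureTheory Set Filter Topology
open scoped ENNReal

/-- Slaloms with summable weights. -/
def Small (S : ℕ → Finset ℕ) : Prop := ∑' n, ((S n).card : ℝ≥0∞) * (1 / 2) ^ n ≠ ∞

/-- The function is localized by the slalom. -/
def Loc (f : ℕ → ℕ) (S : ℕ → Finset ℕ) : Prop := ∀ᶠ n in atTop, f n ∈ S n

theorem small_of_real {S : ℕ → Finset ℕ}
    (h : Summable fun n => ((S n).card : ℝ) * (1 / 2) ^ n) : Small S := by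
  have h1 : (fun n => ((S n).card : ℝ≥0∞) * (1 / 2) ^ n) =
      fun n => ENNReal.ofReal (((S n).card : ℝ) * (1 / 2) ^ n) := by
    funext n
    rw [ENNReal.ofReal_mul (by positivity), ENNReal.ofReal_natCast,
      ENNReal.ofReal_pow (by positivity), ENNReal.ofReal_div_of_pos (by norm_num)]
    simp
  unfold Small
  rw [h1]
  exact h.tsum_ofReal_ne_top

theorem Small.mono {S S' : ℕ → Finset ℕ} (h : Small S') (hc : ∀ n, (S n).card ≤ (S' n).card) :
    Small S :=
  ne_top_of_le_ne_top h (ENNReal.tsum_le_tsum fun n =>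
    mul_le_mul_left (Nat.cast_le.2 (hc n)) _)

/-- The bad events for a measurable set and a cylinder. -/
theorem exists_bad {O : Set Om} (hO : MeasurableSet O) (C : Finset Ev) {δ : ℝ} (hδ : 0 < δ) :
    ∃ S : ℕ → Finset ℕ, Small S ∧ ∀ n m b, m ∉ S n →
      mu.real (O ∩ Cyl C ∩ Ae (n, m, b)) ≤
        mu.real (O ∩ Cyl C) * q n + δ * mu.real (Cyl C) * q n := by
  classical
  set B : Set Om := O ∩ Cyl C with hB
  have hBm : MeasurableSet B := hO.inter (meas_Cyl C)
  set d : ℝ := δ * mu.real (Cyl C) with hd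
  have hd0 : 0 < d := mul_pos hδ (Cyl_pos C)
  let bad : Ev → Prop := fun e => mu.real B * q e.1 + d * q e.1 ≤ mu.real (B ∩ Ae e)
  have hT : ∀ T : Finset Ev, (∀ e ∈ T, bad e) → ∑ e ∈ T, q e.1 ≤ 1 / d ^ 2 := fun T h =>
    bessel hBm T hd0 h
  let bm : ℕ → Set ℕ := fun n => {m | ∃ b, bad (n, m, b)}
  let bb : ℕ → ℕ → Bool := fun n m => if bad (n, m, true) then true else false
  have hbb : ∀ n m, m ∈ bm n → bad (n, m, bb n m) := by
    rintro n m ⟨b, hb⟩
    simp only [bb]
    split_ifs with h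
    · exact h
    · cases b
      · exact hb
      · exact absurd hb h
  have hfin : ∀ n, (bm n).Finite := by
    intro n
    by_contra hinf
    obtain ⟨N, hN⟩ := exists_nat_gt (1 / d ^ 2 / q n)
    obtain ⟨t, ht, hc⟩ := Set.Infinite.exists_subset_card_eq hinf N
    have h1 := hT (t.image fun m => (n, m, bb n m)) (by
      intro e he
      obtain ⟨m, hm, rfl⟩ := Finset.mem_image.1 he
      exact hbb n m (ht hm))
    rw [Finset.sum_image (fun a _ b _ h => by
      simp only [Prod.mk.injEq] at h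
      exact h.2.1)] at h1
    simp only [Finset.sum_const, nsmul_eq_mul, hc] at h1
    rw [div_lt_iff₀ (q_pos n)] at hN
    linarith
  let S : ℕ → Finset ℕ := fun n => (hfin n).toFinset
  refine ⟨S, small_of_real ?_, fun n m b hm => ?_⟩
  · refine summable_of_sum_le (c := 32 * (1 / d ^ 2)) (fun n => by positivity) fun u => ?_
    have h1 := hT ((u.sigma S).image fun a => (a.1, a.2, bb a.1 a.2)) (by
      intro e he
      obtain ⟨a, ha, rfl⟩ := Finset.mem_image.1 he
      rw [Finset.mem_sigma] at ha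
      exact hbb _ _ ((hfin a.1).mem_toFinset.1 ha.2))
    rw [Finset.sum_image (fun a _ b _ h => by
      simp only [Prod.mk.injEq] at h
      exact Sigma.ext h.1 (heq_of_eq h.2.1)), Finset.sum_sigma] at h1
    simp only [Finset.sum_const, nsmul_eq_mul] at h1
    have h2 : ∑ n ∈ u, ((S n).card : ℝ) * (1 / 2) ^ n = 32 * ∑ n ∈ u, ((S n).card : ℝ) * q n := by
      rw [Finset.mul_sum]
      refine Finset.sum_congr rfl fun n _ => ?_
      unfold q
      rw [pow_add]
      ring
    rw [h2]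
    exact mul_le_mul_of_nonneg_left h1 (by norm_num)
  · have h1 : ¬ bad (n, m, b) := fun h => hm ((hfin n).mem_toFinset.2 ⟨b, h⟩)
    exact (not_le.1 h1).le

/-- Countably many slaloms are contained in one. -/
theorem exists_diag (S : ℕ → ℕ → Finset ℕ) (hS : ∀ r, Small (S r)) :
    ∃ S' : ℕ → Finset ℕ, Small S' ∧ ∀ r, ∀ᶠ n in atTop, S r n ⊆ S' n := by
  classical
  have h1 : ∀ r : ℕ, ∃ N : ℕ, r ≤ N ∧
      ∑' k, (((S r (k + N)).card : ℝ≥0∞) * (1 / 2) ^ (k + N)) ≤ (1 / 2) ^ r := by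
    intro r
    have h2 := ENNReal.tendsto_sum_nat_add (fun n => ((S r n).card : ℝ≥0∞) * (1 / 2) ^ n) (hS r)
    have h3 : (0 : ℝ≥0∞) < (1 / 2) ^ r := by
      refine ENNReal.pow_pos ?_ r
      simp
    obtain ⟨N, hN1, hN2⟩ := ((h2.eventually (ge_mem_nhds h3)).and (eventually_ge_atTop r)).exists
    exact ⟨N, hN2, hN1⟩
  choose N hN1 hN2 using h1
  let S' : ℕ → Finset ℕ := fun n => ((Finset.range (n + 1)).filter fun r => N r ≤ n).biUnion
    fun r => S r n
  refine ⟨S', ?_, fun r => ?_⟩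
  · have h2 : ∀ n, ((S' n).card : ℝ≥0∞) * (1 / 2) ^ n ≤
        ∑' r, (if N r ≤ n then ((S r n).card : ℝ≥0∞) * (1 / 2) ^ n else 0) := by
      intro n
      have h3 : ((S' n).card : ℝ≥0∞) ≤
          ∑ r ∈ (Finset.range (n + 1)).filter (fun r => N r ≤ n), ((S r n).card : ℝ≥0∞) := by
        exact_mod_cast Finset.card_biUnion_le
      refine (mul_le_mul_left h3 _).trans ?_
      rw [Finset.sum_mul]
      refine le_trans (le_of_eq ?_) (ENNReal.sum_le_tsum ((Finset.range (n + 1)).filter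
        fun r => N r ≤ n))
      refine Finset.sum_congr rfl fun r hr => ?_
      rw [if_pos (Finset.mem_filter.1 hr).2]
    refine ne_top_of_le_ne_top ?_ (ENNReal.tsum_le_tsum h2)
    rw [ENNReal.tsum_comm]
    have h4 : ∀ r, ∑' n, (if N r ≤ n then ((S r n).card : ℝ≥0∞) * (1 / 2) ^ n else 0) ≤
        (1 / 2) ^ r := by
      intro r
      refine le_trans (le_of_eq ?_) (hN2 r)
      rw [← Summable.sum_add_tsum_nat_add' (f := fun n => if N r ≤ n then
        ((S r n).card : ℝ≥0∞) * (1 / 2) ^ n else 0) (k := N r) ENNReal.summable]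
      rw [Finset.sum_eq_zero fun n hn => if_neg (not_le.2 (Finset.mem_range.1 hn)), zero_add]
      exact tsum_congr fun k => if_pos (Nat.le_add_left _ _)
    refine ne_top_of_le_ne_top ?_ (ENNReal.tsum_le_tsum h4)
    rw [ENNReal.tsum_geometric]
    have h5 : (1 : ℝ≥0∞) - 1 / 2 = 1 / 2 := by
      rw [one_div]
      exact ENNReal.one_sub_inv_two
    rw [h5]
    simp
  · filter_upwards [eventually_ge_atTop (N r), eventually_ge_atTop r] with n h1 h2
    exact Finset.subset_biUnion_of_mem (fun r => S r n)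
      (Finset.mem_filter.2 ⟨Finset.mem_range.2 (by omega), h1⟩)

/-- For a measurable set: one slalom of bad events for all cylinders. -/
theorem exists_slalom {O : Set Om} (hO : MeasurableSet O) : ∃ S : ℕ → Finset ℕ, Small S ∧
    ∀ C : Finset Ev, ∀ r : ℕ, ∀ᶠ n in atTop, ∀ m b, m ∉ S n →
      mu.real (O ∩ Cyl C ∩ Ae (n, m, b)) ≤
        mu.real (O ∩ Cyl C) * q n + (1 / 2) ^ (r + 6) * mu.real (Cyl C) * q n := by
  obtain ⟨g, hg⟩ := exists_surjective_nat (Finset Ev × ℕ)
  have h1 : ∀ k : ℕ, ∃ S : ℕ → Finset ℕ, Small S ∧ ∀ n m b, m ∉ S n →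
      mu.real (O ∩ Cyl (g k).1 ∩ Ae (n, m, b)) ≤ mu.real (O ∩ Cyl (g k).1) * q n +
        (1 / 2) ^ ((g k).2 + 6) * mu.real (Cyl (g k).1) * q n := fun k =>
    exists_bad hO (g k).1 (by positivity)
  choose S hS1 hS2 using h1
  obtain ⟨S', h2, h3⟩ := exists_diag S hS1
  refine ⟨S', h2, fun C r => ?_⟩
  obtain ⟨k, hk⟩ := hg (C, r)
  filter_upwards [h3 k] with n hn m b hm
  have h4 := hS2 k n m b fun h => hm (hn h)
  rw [hk] at h4
  exact h4

end Q163.AC
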