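import Mathlib

/-!
# Finite automata reading two words simultaneously: actions, powers and ranks
-/

set_option autoImplicit false

namespace Pool.Agent.Q163.AC

open Finset

/-- the action of a pair of words on the states -/
def act {A Q : Type} (δ : A → A → Q → Q) : List A → List A → Q → Q
  | a :: l, b :: l', q => act δ l l' (δ a b q)
  | [], _, q => q
  | _ :: _, [], q => q

section act

variable {A B Q : Type} (δ : A → A → Q → Q)

@[simp] theorem act_cons (a b : A) (l l' : List A) (q : Q) :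
    act δ (a :: l) (b :: l') q = act δ l l' (δ a b q) := rfl

@[simp] theorem act_nil (l : List A) (q : Q) : act δ [] l q = q := rfl

theorem act_append {l₁ l₁' : List A} (h : l₁.length = l₁'.length) (l₂ l₂' : List A) (q : Q) :
    act δ (l₁ ++ l₂) (l₁' ++ l₂') q = act δ l₂ l₂' (act δ l₁ l₁' q) := by
  induction l₁ generalizing l₁' q with
  | nil =>
    have : l₁' = [] := List.length_eq_zero_iff.1 h.symm
    subst this
    rfl
  | cons a l ih =>
    cases l₁' with
    | nil => simp at h
    | cons b l' => exact ih (by simpa using h) _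

theorem act_flatMap (w : B → List A) (hw : ∀ i j, (w i).length = (w j).length) {l l' : List B}
    (h : l.length = l'.length) (q : Q) :
    act δ (l.flatMap w) (l'.flatMap w) q = act (fun i j => act δ (w i) (w j)) l l' q := by
  induction l generalizing l' q with
  | nil =>
    have : l' = [] := List.length_eq_zero_iff.1 h.symm
    subst this
    rfl
  | cons a l ih =>
    cases l' with
    | nil => simp at h
    | cons b l' =>
      rw [List.flatMap_cons, List.flatMap_cons, act_append δ (hw a b), ih (by simpa using h)]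
      rfl

theorem act_diag {R : Q → Q} (hR : ∀ a, δ a a = R) (l : List A) (q : Q) :
    act δ l l q = R^[l.length] q := by
  induction l generalizing q with
  | nil => rfl
  | cons a l ih => rw [act_cons, ih, hR]; rfl

theorem act_idem {ρ : Q → Q} (hδ : ∀ a, δ a a = ρ) (hρ : ∀ q, ρ (ρ q) = ρ q) {l : List A}
    (hl : l ≠ []) (q : Q) : act δ l l q = ρ q := by
  rw [act_diag δ hδ]
  obtain ⟨n, hn⟩ : ∃ n, l.length = n + 1 :=
    ⟨l.length - 1, by have := List.length_pos_iff.2 hl; omega⟩
  rw [hn]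
  clear hn
  induction n generalizing q with
  | zero => rfl
  | succ n ih => rw [Function.iterate_succ_apply, ih, hρ]

theorem act_rep {l l' : List A} (h : l.length = l'.length) (e : ℕ) (q : Q) :
    act δ (List.replicate e l).flatten (List.replicate e l').flatten q = (act δ l l')^[e] q := by
  induction e generalizing q with
  | zero => rfl
  | succ e ih =>
    rw [List.replicate_succ, List.replicate_succ, List.flatten_cons, List.flatten_cons,
      act_append δ h, ih, Function.iterate_succ_apply]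

end act

section power

variable {Q : Type} [Fintype Q] [DecidableEq Q]

/-- the power `s!` of a map of a set with at most `s` elements is idempotent -/
theorem iter_idem {s : ℕ} (hs : Fintype.card Q ≤ s) (f : Q → Q) (x : Q) :
    f^[s.factorial] (f^[s.factorial] x) = f^[s.factorial] x := by
  have hpig : ∃ i j : Fin (s + 1), i ≠ j ∧ f^[i] x = f^[j] x := by
    have h1 : Fintype.card Q < Fintype.card (Fin (s + 1)) := by
      rw [Fintype.card_fin]; omega
    obtain ⟨i, j, hij, h⟩ := Fintype.exists_ne_map_eq_of_card_lt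
      (fun i : Fin (s + 1) => f^[i] x) h1
    exact ⟨i, j, hij, h⟩
  obtain ⟨i, p, hp, hip, hx⟩ : ∃ i p : ℕ, 0 < p ∧ i + p ≤ s ∧ f^[i + p] x = f^[i] x := by
    obtain ⟨i, j, hij, h⟩ := hpig
    have hij' : (i : ℕ) ≠ j := fun h' => hij (Fin.ext h')
    rcases lt_or_gt_of_ne hij' with hlt | hlt
    · refine ⟨i, j - i, by omega, by have := j.2; omega, ?_⟩
      rw [show (i : ℕ) + (j - i) = j by omega]
      exact h.symm
    · refine ⟨j, i - j, by omega, by have := i.2; omega, ?_⟩
      rw [show (j : ℕ) + (i - j) = i by omega]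
      exact h
  have h1 : ∀ n, i ≤ n → f^[n + p] x = f^[n] x := by
    intro n hn
    obtain ⟨d, rfl⟩ := Nat.exists_eq_add_of_le hn
    rw [show i + d + p = d + (i + p) by omega, Function.iterate_add_apply, hx,
      ← Function.iterate_add_apply, add_comm d i]
  have h2 : ∀ k n, i ≤ n → f^[n + p * k] x = f^[n] x := by
    intro k
    induction k with
    | zero => intro n _; rfl
    | succ k ih =>
      intro n hn
      rw [mul_add, mul_one, ← add_assoc, h1 _ (by omega), ih n hn]
  obtain ⟨k, hk⟩ := Nat.dvd_factorial hp (by omega : p ≤ s)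
  rw [← Function.iterate_add_apply]
  conv_lhs => rw [show s.factorial + s.factorial = s.factorial + p * k by rw [← hk]]
  exact h2 k _ (le_trans (by omega) (Nat.self_le_factorial s))

/-- the rank of a map -/
def rk (f : Q → Q) : ℕ := (univ.image f).card

theorem rk_comp_le_right (g f : Q → Q) : rk (fun q => g (f q)) ≤ rk f := by
  unfold rk
  have : univ.image (fun q => g (f q)) = (univ.image f).image g := by
    rw [image_image]; rfl
  rw [this]
  exact card_image_le

theorem rk_comp_le_left (g f : Q → Q) : rk (fun q => g (f q)) ≤ rk g := by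
  unfold rk
  refine card_le_card ?_
  intro y hy
  rw [mem_image] at hy ⊢
  obtain ⟨q, _, rfl⟩ := hy
  exact ⟨f q, mem_univ _, rfl⟩

/-- the common power of maps with the same image set and the same kernel -/
theorem pow_eq {h₁ h₂ : Q → Q} {I : Finset Q} {e : ℕ} (he : 0 < e)
    (hI₁ : ∀ q, h₁ q ∈ I) (hI₂ : ∀ q, h₂ q ∈ I)
    (hinj₁ : ∀ a ∈ I, ∀ b ∈ I, h₁ a = h₁ b → a = b)
    (hinj₂ : ∀ a ∈ I, ∀ b ∈ I, h₂ a = h₂ b → a = b)
    (hker : ∀ a b, h₁ a = h₁ b ↔ h₂ a = h₂ b)
    (hid₁ : ∀ q, h₁^[e] (h₁^[e] q) = h₁^[e] q) (hid₂ : ∀ q, h₂^[e] (h₂^[e] q) = h₂^[e] q)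
    (q : Q) : h₁^[e] q = h₂^[e] q := by
  have key : ∀ (h : Q → Q), (∀ q, h q ∈ I) → (∀ a ∈ I, ∀ b ∈ I, h a = h b → a = b) →
      (∀ q, h^[e] (h^[e] q) = h^[e] q) → (∀ q, h^[e] q ∈ I ∧ h (h^[e] q) = h q) := by
    intro h hI hinj hid q
    have hmem : ∀ n, 0 < n → ∀ q, h^[n] q ∈ I := by
      intro n hn q
      obtain ⟨m, rfl⟩ : ∃ m, n = m + 1 := ⟨n - 1, by omega⟩
      rw [Function.iterate_succ_apply']
      exact hI _
    have hinj' : ∀ n, ∀ a ∈ I, ∀ b ∈ I, h^[n] a = h^[n] b → a = b := by
      intro n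
      induction n with
      | zero => intro a _ b _ h; exact h
      | succ n ih =>
        intro a ha b hb hab
        rw [Function.iterate_succ_apply, Function.iterate_succ_apply] at hab
        exact hinj a ha b hb (ih _ (hI a) _ (hI b) hab)
    have hfix : ∀ y ∈ I, h^[e] y = y := by
      intro y hy
      exact hinj' e _ (hmem e he y) _ hy (hid y)
    refine ⟨hmem e he q, ?_⟩
    rw [← Function.iterate_succ_apply' h e q, Function.iterate_succ_apply, hfix _ (hI q)]
  obtain ⟨a1, a2⟩ := key h₁ hI₁ hinj₁ hid₁ q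
  obtain ⟨b1, b2⟩ := key h₂ hI₂ hinj₂ hid₂ q
  apply hinj₂ _ a1 _ b1
  rw [b2]
  exact (hker _ _).1 a2

/-- maps `ρ α z α ρ` with `α` of minimal rank -/
theorem sandwich {ρ α z₁ z₂ : Q → Q} {e : ℕ} (he : 0 < e) (hidem : ∀ (f : Q → Q) (q : Q),
    f^[e] (f^[e] q) = f^[e] q)
    (hmin₀ : rk α ≤ rk (fun q => ρ (α q)))
    (hmin : ∀ z ∈ ({z₁, z₂} : Set (Q → Q)), rk α ≤ rk (fun q => ρ (α (z (α (ρ q))))) ∧
      rk α ≤ rk (fun q => (fun q => ρ (α (z (α (ρ q))))) ((fun q => ρ (α (z (α (ρ q))))) q)))
    (hmin₁ : rk α ≤ rk (fun q => α (ρ q))) (q : Q) :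
    (fun q => ρ (α (z₁ (α (ρ q)))))^[e] q = (fun q => ρ (α (z₂ (α (ρ q)))))^[e] q := by
  have hinj : ∀ z ∈ ({z₁, z₂} : Set (Q → Q)), ∀ a ∈ univ.image (fun q => ρ (α q)),
      ∀ b ∈ univ.image (fun q => ρ (α q)),
      ρ (α (z (α (ρ a)))) = ρ (α (z (α (ρ b)))) → a = b := by
    intro z hz a ha b hb hab
    obtain ⟨h1, h2⟩ := hmin z hz
    have hsub : univ.image (fun q => ρ (α (z (α (ρ q))))) ⊆ univ.image (fun q => ρ (α q)) := by
      intro y hy
      rw [mem_image] at hy ⊢
      obtain ⟨q, _, rfl⟩ := hy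
      exact ⟨z (α (ρ q)), mem_univ _, rfl⟩
    have hle : rk (fun q => ρ (α q)) ≤ rk α := rk_comp_le_right ρ α
    have himg : univ.image (fun q => ρ (α (z (α (ρ q))))) = univ.image (fun q => ρ (α q)) :=
      eq_of_subset_of_card_le hsub (hle.trans h1)
    have hcard : ((univ.image (fun q => ρ (α q))).image (fun q => ρ (α (z (α (ρ q)))))).card =
        (univ.image (fun q => ρ (α q))).card := by
      refine le_antisymm card_image_le ?_
      have e1 : (univ.image (fun q => ρ (α q))).image (fun q => ρ (α (z (α (ρ q))))) =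
          univ.image (fun q => (fun q => ρ (α (z (α (ρ q))))) ((fun q => ρ (α (z (α (ρ q))))) q)) := by
        rw [← himg, image_image]; rfl
      rw [e1]
      exact hle.trans h2
    exact Finset.card_image_iff.1 hcard ha hb hab
  have hker : ∀ z ∈ ({z₁, z₂} : Set (Q → Q)), ∀ a b,
      ρ (α (z (α (ρ a)))) = ρ (α (z (α (ρ b)))) ↔ α (ρ a) = α (ρ b) := by
    intro z hz a b
    refine ⟨fun hab => ?_, fun hab => by rw [hab]⟩
    obtain ⟨h1, -⟩ := hmin z hz
    have e1 : univ.image (fun q => ρ (α (z (α (ρ q))))) =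
        (univ.image (fun q => α (ρ q))).image (fun y => ρ (α (z y))) := by
      rw [image_image]; rfl
    have hle : rk (fun q => α (ρ q)) ≤ rk α := rk_comp_le_left α ρ
    have hcard : ((univ.image (fun q => α (ρ q))).image (fun y => ρ (α (z y)))).card =
        (univ.image (fun q => α (ρ q))).card := by
      refine le_antisymm card_image_le ?_
      rw [← e1]
      exact hle.trans h1
    exact Finset.card_image_iff.1 hcard (mem_coe.2 (mem_image_of_mem _ (mem_univ a)))
      (mem_coe.2 (mem_image_of_mem _ (mem_univ b))) hab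
  have hz1 : z₁ ∈ ({z₁, z₂} : Set (Q → Q)) := by simp
  have hz2 : z₂ ∈ ({z₁, z₂} : Set (Q → Q)) := by simp
  refine pow_eq (I := univ.image (fun q => ρ (α q))) he ?_ ?_ (hinj z₁ hz1) (hinj z₂ hz2) ?_ ?_ ?_ q
  · intro q; exact mem_image.2 ⟨z₁ (α (ρ q)), mem_univ _, rfl⟩
  · intro q; exact mem_image.2 ⟨z₂ (α (ρ q)), mem_univ _, rfl⟩
  · intro a b
    exact (hker z₁ hz1 a b).trans (hker z₂ hz2 a b).symm
  · exact hidem _
  · exact hidem _

end power

end Pool.Agent.Q163.AC
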