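import Pool.Agent.Q163.AC.B

/-!
# Points with prescribed codes outside a given open set
-/

set_option autoImplicit false

namespace Q163.AC

open MeasureTheory Set Filter Topology
open scoped ENNReal

/-- The point `x` is marked at the value of `f` at `n`. -/
def hit (x : Om) (f : ℕ → ℕ) (n : ℕ) : Prop := ∃ b, x (n, f n, b) = true

open Classical in
/-- The number of the marks before `n`. -/
noncomputable def cnt (x : Om) (f : ℕ → ℕ) (n : ℕ) : ℕ :=
  ((Finset.range n).filter fun k => hit x f k).card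

/-- `x` has infinitely many marks along `f`, which spell `ζ`. -/
def Dec (x : Om) (f : ℕ → ℕ) (ζ : ℕ → Bool) : Prop :=
  (∀ n b, x (n, f n, b) = true → ζ (cnt x f n) = b) ∧ ∃ᶠ n in atTop, hit x f n

/-- `x` has no marks in the slalom. -/
def Clean (x : Om) (R : ℕ → Finset ℕ) : Prop := ∀ n, ∀ m ∈ R n, ∀ b, x (n, m, b) = false

theorem qe_eq (n : ℕ) : ENNReal.ofReal (q n) = (1 / 2) ^ n * (1 / 32) := by
  unfold q
  rw [pow_add, ENNReal.ofReal_mul (by positivity), ENNReal.ofReal_pow (by positivity),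
    ENNReal.ofReal_div_of_pos (by norm_num), ENNReal.ofReal_one]
  congr 1
  · simp
  · rw [show ((1 : ℝ) / 2) ^ 5 = 1 / 32 by norm_num, ENNReal.ofReal_div_of_pos (by norm_num)]
    simp

theorem mu_Ae_Cyl' {e : Ev} {S : Finset Ev} (h : e ∉ S) :
    mu (Cyl S ∩ Ae e) = ENNReal.ofReal (q e.1) * mu (Cyl S) := by
  rw [inter_comm, ← ofReal_measureReal, mu_Ae_Cyl h, ENNReal.ofReal_mul (q_pos _).le,
    ofReal_measureReal]

theorem cyl_fst {x : ℝ≥0∞} : ∑' n : ℕ, ((1 / 2 : ℝ≥0∞) ^ n * (1 / 32)) * 2 * x = 1 / 8 * x := by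
  rw [ENNReal.tsum_mul_right, ENNReal.tsum_mul_right, ENNReal.tsum_mul_right,
    ENNReal.tsum_geometric]
  congr 1
  have h5 : (1 : ℝ≥0∞) - 1 / 2 = 1 / 2 := by
    rw [one_div]
    exact ENNReal.one_sub_inv_two
  rw [h5, one_div, inv_inv, one_div, one_div]
  have h6 : (32 : ℝ≥0∞) = 2 * 2 * 8 := by norm_num
  rw [h6, ENNReal.mul_inv (by norm_num) (by norm_num), ENNReal.mul_inv (by norm_num) (by norm_num)]
  rw [show (2 : ℝ≥0∞) * (2⁻¹ * 2⁻¹ * 8⁻¹) * 2 = (2 * 2⁻¹) * (2 * 2⁻¹) * 8⁻¹ by ring,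
    ENNReal.mul_inv_cancel (by norm_num) (by norm_num)]
  simp

/-- The bad set in a cylinder does not cover it. -/
theorem exists_point {O : Set Om} {f : ℕ → ℕ} {R : ℕ → Finset ℕ}
    (hR : ∑' n, ((R n).card : ℝ≥0∞) * (1 / 2) ^ n ≤ 1) (C : Finset Ev)
    (hC : ∀ e ∈ C, e.2.1 ∉ R e.1) (hO : mu.real (O ∩ Cyl C) ≤ 3 / 32 * mu.real (Cyl C)) :
    ∃ x, x ∉ O ∧ x ∈ Cyl C ∧ (∀ n b, (n, f n, b) ∉ C → x (n, f n, b) = false) ∧ Clean x R := by
  set c : ℝ≥0∞ := mu (Cyl C) with hc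
  have hc0 : c ≠ 0 := fun h => by
    have := Cyl_pos C
    rw [Measure.real, ← hc, h] at this
    simp at this
  have hct : c ≠ ∞ := measure_ne_top _ _
  let U2 : Set Om := ⋃ n : ℕ, ⋃ b : Bool, ⋃ _ : (n, f n, b) ∉ C, Ae (n, f n, b)
  let U3 : Set Om := ⋃ n : ℕ, ⋃ m ∈ R n, ⋃ b : Bool, Ae (n, m, b)
  have h1 : mu (Cyl C ∩ O) ≤ 3 / 32 * c := by
    rw [inter_comm, ← ofReal_measureReal, hc, ← ofReal_measureReal (μ := mu) (s := Cyl C)]
    refine (ENNReal.ofReal_le_ofReal hO).trans ?_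
    rw [ENNReal.ofReal_mul (by norm_num), ENNReal.ofReal_div_of_pos (by norm_num)]
    simp
  have h2 : mu (Cyl C ∩ U2) ≤ 1 / 8 * c := by
    rw [← cyl_fst (x := c), inter_iUnion]
    refine (measure_iUnion_le _).trans (ENNReal.tsum_le_tsum fun n => ?_)
    rw [inter_iUnion]
    refine (measure_iUnion_le _).trans ?_
    rw [tsum_bool, ← qe_eq]
    have h3 : ∀ b : Bool, mu (Cyl C ∩ ⋃ _ : (n, f n, b) ∉ C, Ae (n, f n, b)) ≤
        ENNReal.ofReal (q n) * c := by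
      intro b
      by_cases hb : (n, f n, b) ∈ C
      · simp [hb]
      · have h4 : (⋃ _ : (n, f n, b) ∉ C, Ae (n, f n, b)) = Ae (n, f n, b) := by simp [hb]
        rw [h4, mu_Ae_Cyl' hb]
    refine (add_le_add (h3 _) (h3 _)).trans (le_of_eq ?_)
    ring
  have h3 : mu (Cyl C ∩ U3) ≤ 1 / 16 * c := by
    have h4 : ∑' n, (((R n).card : ℝ≥0∞) * (1 / 2) ^ n) * (1 / 16 * c) ≤ 1 / 16 * c := by
      rw [ENNReal.tsum_mul_right]
      exact (mul_le_mul_left hR _).trans (by rw [one_mul])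
    refine le_trans ?_ h4
    rw [inter_iUnion]
    refine (measure_iUnion_le _).trans (ENNReal.tsum_le_tsum fun n => ?_)
    rw [inter_iUnion₂]
    refine (measure_biUnion_finset_le _ _).trans ?_
    have h5 : ∀ m ∈ R n, mu (Cyl C ∩ ⋃ b : Bool, Ae (n, m, b)) ≤
        ENNReal.ofReal (q n) * c + ENNReal.ofReal (q n) * c := by
      intro m hm
      rw [inter_iUnion]
      refine (measure_iUnion_le _).trans ?_
      rw [tsum_bool]
      have h6 : ∀ b : Bool, (n, m, b) ∉ C := fun b hb => hC _ hb hm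
      rw [mu_Ae_Cyl' (h6 _), mu_Ae_Cyl' (h6 _)]
    refine (Finset.sum_le_card_nsmul _ _ _ h5).trans (le_of_eq ?_)
    rw [nsmul_eq_mul, qe_eq]
    have h7 : (1 : ℝ≥0∞) / 16 = 1 / 32 + 1 / 32 := by
      rw [ENNReal.div_add_div_same, one_add_one_eq_two]
      rw [show (32 : ℝ≥0∞) = 2 * 16 by norm_num]
      rw [← ENNReal.mul_div_mul_left (1 : ℝ≥0∞) 16 (c := 2) (by norm_num) (by norm_num)]
      simp
    rw [h7]
    ring
  have h4 : mu (Cyl C ∩ (O ∪ (U2 ∪ U3))) < c := by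
    rw [inter_union_distrib_left, inter_union_distrib_left]
    refine lt_of_le_of_lt ((measure_union_le _ _).trans (add_le_add h1
      ((measure_union_le _ _).trans (add_le_add h2 h3)))) ?_
    rw [← add_mul, ← add_mul]
    have h8 : (3 / 32 + (1 / 8 + 1 / 16) : ℝ≥0∞) < 1 := by
      have h9 : (3 / 32 + (1 / 8 + 1 / 16) : ℝ≥0∞) = ENNReal.ofReal (9 / 32) := by
        rw [show (9 / 32 : ℝ) = 3 / 32 + (1 / 8 + 1 / 16) by norm_num,
          ENNReal.ofReal_add (by norm_num) (by norm_num), ENNReal.ofReal_add (by norm_num)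
          (by norm_num), ENNReal.ofReal_div_of_pos (by norm_num),
          ENNReal.ofReal_div_of_pos (by norm_num), ENNReal.ofReal_div_of_pos (by norm_num)]
        simp
      rw [h9]
      exact ENNReal.ofReal_lt_one.2 (by norm_num)
    calc (3 / 32 + (1 / 8 + 1 / 16) : ℝ≥0∞) * c < 1 * c := ENNReal.mul_lt_mul_left hc0 hct h8
      _ = c := one_mul c
  have h5 : ∃ x ∈ Cyl C, x ∉ O ∪ (U2 ∪ U3) := by
    by_contra hcon
    push Not at hcon
    have h6 : Cyl C ∩ (O ∪ (U2 ∪ U3)) = Cyl C := inter_eq_left.2 fun x hx => hcon x hx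
    rw [h6] at h4
    exact lt_irrefl _ h4
  obtain ⟨x, hx, hxU⟩ := h5
  refine ⟨x, fun h => hxU (Or.inl h), hx, fun n b hb => ?_, fun n m hm b => ?_⟩
  · by_contra hcon
    rw [Bool.not_eq_false] at hcon
    exact hxU (Or.inr (Or.inl (mem_iUnion.2 ⟨n, mem_iUnion.2 ⟨b, mem_iUnion.2 ⟨hb, hcon⟩⟩⟩)))
  · by_contra hcon
    rw [Bool.not_eq_false] at hcon
    exact hxU (Or.inr (Or.inr (mem_iUnion.2 ⟨n, mem_iUnion₂.2 ⟨m, hm, mem_iUnion.2 ⟨b, hcon⟩⟩⟩)))

end Q163.AC
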