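import Pool.Agent.Q163.AC.C

/-!
# Points with prescribed codes: the construction
-/

set_option autoImplicit false

namespace Q163.AC

open MeasureTheory Set Filter Topology
open scoped ENNReal

/-- The properties of a stage of the construction. -/
def Stage (O : Set Om) (R : ℕ → Finset ℕ) (j : ℕ) (s : Finset Ev × ℕ) : Prop :=
  (∀ e ∈ s.1, e.1 < s.2) ∧ (∀ e ∈ s.1, e.2.1 ∉ R e.1) ∧
    mu.real (O ∩ Cyl s.1) ≤ (3 / 32 - (1 / 32) * (1 / 2) ^ j) * mu.real (Cyl s.1)

theorem stage_step {O : Set Om} {f : ℕ → ℕ} {R S : ℕ → Finset ℕ} (ζ : ℕ → Bool)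
    (hS : ∀ C : Finset Ev, ∀ r : ℕ, ∀ᶠ n in atTop, ∀ m b, m ∉ S n →
      mu.real (O ∩ Cyl C ∩ Ae (n, m, b)) ≤
        mu.real (O ∩ Cyl C) * q n + (1 / 2) ^ (r + 6) * mu.real (Cyl C) * q n)
    (hf : ∃ᶠ n in atTop, f n ∉ S n) (hfR : ∀ n, f n ∉ R n) (j : ℕ) (s : Finset Ev × ℕ)
    (hs : Stage O R j s) : ∃ n, s.2 ≤ n ∧
      Stage O R (j + 1) (insert (n, f n, ζ j) s.1, n + 1) := by
  obtain ⟨n, h1, h2, h3⟩ := (hf.and_eventually ((hS s.1 j).and (eventually_ge_atTop s.2))).exists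
  refine ⟨n, h3, ?_, ?_, ?_⟩
  · intro e he
    rcases Finset.mem_insert.1 he with rfl | he
    · exact Nat.lt_succ_self n
    · exact (hs.1 e he).trans_le (h3.trans (Nat.le_succ n))
  · intro e he
    rcases Finset.mem_insert.1 he with rfl | he
    · exact hfR n
    · exact hs.2.1 e he
  · have hn : (n, f n, ζ j) ∉ s.1 := fun h => absurd (hs.1 _ h) (not_lt.2 h3)
    have h4 := h2 (f n) (ζ j) h1
    have h5 : mu.real (Cyl (insert (n, f n, ζ j) s.1)) = q n * mu.real (Cyl s.1) := by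
      rw [Cyl_insert, mu_Ae_Cyl hn]
    have h6 : O ∩ Cyl (insert (n, f n, ζ j) s.1) = O ∩ Cyl s.1 ∩ Ae (n, f n, ζ j) := by
      rw [Cyl_insert]
      ext x
      simp only [mem_inter_iff]
      tauto
    show mu.real (O ∩ Cyl (insert (n, f n, ζ j) s.1)) ≤
      (3 / 32 - (1 / 32) * (1 / 2) ^ (j + 1)) * mu.real (Cyl (insert (n, f n, ζ j) s.1))
    rw [h6, h5]
    refine h4.trans ?_
    have h7 := mul_le_mul_of_nonneg_right hs.2.2 (q_pos n).le
    have h8 : (1 / 2 : ℝ) ^ (j + 6) = (1 / 64) * (1 / 2) ^ j := by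
      rw [pow_add]
      norm_num
      ring
    rw [h8, pow_succ]
    nlinarith [h7]

theorem closed_coord (e : Ev) (b : Bool) : IsClosed {x : Om | x e = b} :=
  isClosed_eq (continuous_apply e) continuous_const

/-- Points outside a small open set with prescribed codes. -/
theorem exists_code {O : Set Om} (hO : IsOpen O) (hO1 : mu.real O ≤ 1 / 16) {f : ℕ → ℕ}
    {R S : ℕ → Finset ℕ} (hR : ∑' n, ((R n).card : ℝ≥0∞) * (1 / 2) ^ n ≤ 1) (ζ : ℕ → Bool)
    (hS : ∀ C : Finset Ev, ∀ r : ℕ, ∀ᶠ n in atTop, ∀ m b, m ∉ S n →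
      mu.real (O ∩ Cyl C ∩ Ae (n, m, b)) ≤
        mu.real (O ∩ Cyl C) * q n + (1 / 2) ^ (r + 6) * mu.real (Cyl C) * q n)
    (hf : ∃ᶠ n in atTop, f n ∉ S n) (hfR : ∀ n, f n ∉ R n) :
    ∃ x, x ∉ O ∧ Clean x R ∧ Dec x f ζ := by
  have h0 : Stage O R 0 (∅, 0) := by
    refine ⟨fun e he => absurd he (Finset.notMem_empty e),
      fun e he => absurd he (Finset.notMem_empty e), ?_⟩
    have h1 : Cyl ∅ = univ := by ext x; simp [Cyl]
    show mu.real (O ∩ Cyl ∅) ≤ _ * mu.real (Cyl ∅)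
    rw [h1, inter_univ, probReal_univ]
    norm_num
    linarith
  -- the sequence of the stages
  have hstep := fun (j : ℕ) (s : {s : Finset Ev × ℕ // Stage O R j s}) =>
    stage_step ζ hS hf hfR j s.1 s.2
  choose nx hnx1 hnx2 using hstep
  let st : ∀ j : ℕ, {s : Finset Ev × ℕ // Stage O R j s} := fun j => Nat.rec ⟨(∅, 0), h0⟩
    (fun j s => ⟨(insert (nx j s, f (nx j s), ζ j) s.1.1, nx j s + 1), hnx2 j s⟩) j
  have hst : ∀ j, (st (j + 1)).1 = (insert (nx j (st j), f (nx j (st j)), ζ j) (st j).1.1,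
      nx j (st j) + 1) := fun j => rfl
  let ν : ℕ → ℕ := fun j => nx j (st j)
  let C : ℕ → Finset Ev := fun j => (st j).1.1
  let N : ℕ → ℕ := fun j => (st j).1.2
  have hC0 : C 0 = ∅ := rfl
  have hCs : ∀ j, C (j + 1) = insert (ν j, f (ν j), ζ j) (C j) := fun j =>
    congrArg Prod.fst (hst j)
  have hNs : ∀ j, N (j + 1) = ν j + 1 := fun j => congrArg Prod.snd (hst j)
  have hNν : ∀ j, N j ≤ ν j := fun j => hnx1 j (st j)
  have hSt : ∀ j, Stage O R j (C j, N j) := fun j => (st j).2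
  have hνm : StrictMono ν := strictMono_nat_of_lt_succ fun j => by
    have h1 := hNν (j + 1)
    rw [hNs j] at h1
    omega
  have hNm : Monotone N := monotone_nat_of_le_succ fun j => by
    have h1 := hNν j
    rw [hNs j]
    omega
  have hNge : ∀ j, j ≤ N j := by
    intro j
    induction j with
    | zero => exact Nat.zero_le _
    | succ j ih =>
      have h1 := hνm.id_le j
      rw [hNs j]
      have h2 : j ≤ ν j := h1
      omega
  have hCmem : ∀ j e, e ∈ C j ↔ ∃ l < j, e = (ν l, f (ν l), ζ l) := by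
    intro j
    induction j with
    | zero =>
      intro e
      rw [hC0]
      simp
    | succ j ih =>
      intro e
      rw [hCs j, Finset.mem_insert, ih]
      constructor
      · rintro (h | ⟨l, hl, h⟩)
        · exact ⟨j, Nat.lt_succ_self j, h⟩
        · exact ⟨l, hl.trans (Nat.lt_succ_self j), h⟩
      · rintro ⟨l, hl, h⟩
        rcases Nat.lt_succ_iff_lt_or_eq.1 hl with hl | rfl
        · exact Or.inr ⟨l, hl, h⟩
        · exact Or.inl h
  -- the compact sets
  let K : ℕ → Set Om := fun j => Oᶜ ∩ (Cyl (C j) ∩ ({x | ∀ n b, n < N j → (n, f n, b) ∉ C j →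
    x (n, f n, b) = false} ∩ {x | Clean x R}))
  have hKne : ∀ j, (K j).Nonempty := by
    intro j
    have h1 : mu.real (O ∩ Cyl (C j)) ≤ 3 / 32 * mu.real (Cyl (C j)) := by
      refine (hSt j).2.2.trans (mul_le_mul_of_nonneg_right ?_ (Cyl_pos _).le)
      have : (0 : ℝ) ≤ (1 / 32) * (1 / 2) ^ j := by positivity
      linarith
    obtain ⟨x, h2, h3, h4, h5⟩ := exists_point (f := f) hR (C j) (hSt j).2.1 h1
    exact ⟨x, h2, h3, fun n b _ hb => h4 n b hb, h5⟩
  have hKmono : ∀ j, K (j + 1) ⊆ K j := by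
    rintro j x ⟨h1, h2, h3, h4⟩
    refine ⟨h1, fun e he => h2 e (by rw [hCs j]; exact Finset.mem_insert_of_mem he), ?_, h4⟩
    intro n b hn hb
    refine h3 n b (hn.trans_le (hNm (Nat.le_succ j))) ?_
    rw [hCs j, Finset.mem_insert, not_or]
    refine ⟨fun h => ?_, hb⟩
    have h5 : n = ν j := congrArg Prod.fst h
    have h6 := hNν j
    omega
  have hKcl : ∀ j, IsClosed (K j) := by
    intro j
    have c2 : IsClosed (Cyl (C j)) := by
      have h1 : Cyl (C j) = ⋂ e ∈ C j, {x : Om | x e = true} := by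
        ext x; simp [Cyl]
      rw [h1]
      exact isClosed_biInter fun e _ => closed_coord e true
    have c3 : IsClosed {x : Om | ∀ n b, n < N j → (n, f n, b) ∉ C j → x (n, f n, b) = false} := by
      have h1 : {x : Om | ∀ n b, n < N j → (n, f n, b) ∉ C j → x (n, f n, b) = false} =
          ⋂ n, ⋂ b, ⋂ _ : n < N j, ⋂ _ : (n, f n, b) ∉ C j, {x : Om | x (n, f n, b) = false} := by
        ext x; simp
      rw [h1]
      exact isClosed_iInter fun n => isClosed_iInter fun b => isClosed_iInter fun _ =>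
        isClosed_iInter fun _ => closed_coord _ false
    have c4 : IsClosed {x : Om | Clean x R} := by
      have h1 : {x : Om | Clean x R} =
          ⋂ n, ⋂ m, ⋂ _ : m ∈ R n, ⋂ b, {x : Om | x (n, m, b) = false} := by
        ext x; simp [Clean]
      rw [h1]
      exact isClosed_iInter fun n => isClosed_iInter fun m => isClosed_iInter fun _ =>
        isClosed_iInter fun _ => closed_coord _ false
    exact hO.isClosed_compl.inter (c2.inter (c3.inter c4))
  obtain ⟨x, hx⟩ := IsCompact.nonempty_iInter_of_sequence_nonempty_isCompact_isClosed K hKmono hKne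
    (hKcl 0).isCompact hKcl
  rw [mem_iInter] at hx
  have hmark : ∀ n b, x (n, f n, b) = true ↔ ∃ l, n = ν l ∧ b = ζ l := by
    intro n b
    constructor
    · intro h
      have h1 := (hx (n + 1)).2.2.1
      by_cases h2 : (n, f n, b) ∈ C (n + 1)
      · obtain ⟨l, -, h3⟩ := (hCmem _ _).1 h2
        simp only [Prod.mk.injEq] at h3
        exact ⟨l, h3.1, h3.2.2⟩
      · have h3 := h1 n b (Nat.lt_of_lt_of_le (Nat.lt_succ_self n) (hNge _)) h2
        rw [h] at h3
        exact absurd h3 (by simp)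
    · rintro ⟨l, rfl, rfl⟩
      exact (hx (l + 1)).2.1 _ ((hCmem _ _).2 ⟨l, Nat.lt_succ_self l, rfl⟩)
  have hhit : ∀ n, hit x f n ↔ ∃ l, n = ν l := by
    intro n
    constructor
    · rintro ⟨b, hb⟩
      obtain ⟨l, h, -⟩ := (hmark n b).1 hb
      exact ⟨l, h⟩
    · rintro ⟨l, rfl⟩
      exact ⟨ζ l, (hmark _ _).2 ⟨l, rfl, rfl⟩⟩
  have hcnt : ∀ l, cnt x f (ν l) = l := by
    classical
    intro l
    unfold cnt
    have h1 : (Finset.range (ν l)).filter (fun k => hit x f k) = (Finset.range l).image ν := by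
      ext k
      rw [Finset.mem_filter, Finset.mem_range, Finset.mem_image, hhit]
      constructor
      · rintro ⟨h1, l', rfl⟩
        exact ⟨l', Finset.mem_range.2 (hνm.lt_iff_lt.1 h1), rfl⟩
      · rintro ⟨l', h1, rfl⟩
        exact ⟨hνm (Finset.mem_range.1 h1), l', rfl⟩
    rw [h1, Finset.card_image_of_injective _ hνm.injective, Finset.card_range]
  refine ⟨x, (hx 0).1, (hx 0).2.2.2, fun n b hb => ?_, ?_⟩
  · obtain ⟨l, rfl, rfl⟩ := (hmark n b).1 hb
    rw [hcnt]
  · rw [frequently_atTop]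
    intro a
    exact ⟨ν a, hνm.id_le a, (hhit _).2 ⟨a, rfl⟩⟩

/-- The decoded sequence is unique. -/
theorem Dec.unique {x : Om} {f : ℕ → ℕ} {ζ ζ' : ℕ → Bool} (h : Dec x f ζ) (h' : Dec x f ζ') :
    ζ = ζ' := by
  classical
  have h1 : ∀ l, ∃ n, hit x f n ∧ cnt x f n = l := by
    intro l
    -- the `l`-th mark
    have h2 : (Set.ofPred fun n => hit x f n).Infinite := Nat.frequently_atTop_iff_infinite.1 h.2
    refine ⟨Nat.nth (hit x f) l, Nat.nth_mem_of_infinite h2 l, ?_⟩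
    have h3 := Nat.count_nth_of_infinite h2 l
    rw [Nat.count_eq_card_filter_range] at h3
    unfold cnt
    convert h3
  funext l
  obtain ⟨n, ⟨b, hb⟩, hn⟩ := h1 l
  rw [← hn, h.1 n b hb, h'.1 n b hb]

/-- Clean points have finitely many marks along localized functions. -/
theorem Clean.not_dec {x : Om} {R : ℕ → Finset ℕ} (h : Clean x R) {f : ℕ → ℕ} (hf : Loc f R)
    (ζ : ℕ → Bool) : ¬ Dec x f ζ := by
  rintro ⟨-, h1⟩
  obtain ⟨n, ⟨b, h2⟩, h3⟩ := (h1.and_eventually hf).exists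
  rw [h n _ h3 b] at h2
  exact absurd h2 (by simp)

end Q163.AC
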