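import Pool.Agent.Q163.AC.D

/-!
# Codes of null sets, and the least family which is not localized
-/

set_option autoImplicit false

namespace Q163.AC

open MeasureTheory Set Filter Topology Cardinal
open scoped ENNReal

theorem exists_basis : ∃ B : ℕ → Set Om, (∀ k, IsOpen (B k)) ∧
    ∀ (O : Set Om), IsOpen O → ∀ x ∈ O, ∃ k, x ∈ B k ∧ B k ⊆ O := by
  have hb := TopologicalSpace.isBasis_countableBasis Om
  have hne : (TopologicalSpace.countableBasis Om).Nonempty := by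
    rw [nonempty_iff_ne_empty]
    intro h
    have h1 := hb.sUnion_eq
    rw [h, sUnion_empty] at h1
    exact empty_ne_univ h1
  obtain ⟨B, hB⟩ := (TopologicalSpace.countable_countableBasis Om).exists_eq_range hne
  refine ⟨B, fun k => hb.isOpen (hB ▸ mem_range_self k), fun O hO x hx => ?_⟩
  obtain ⟨V, hV, hxV, hVO⟩ := hb.exists_subset_of_mem_open hx hO
  rw [hB] at hV
  obtain ⟨k, rfl⟩ := hV
  exact ⟨k, hxV, hVO⟩

/-- The basic open sets. -/
noncomputable def Bs : ℕ → Set Om := exists_basis.choose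

theorem Bs_open (k : ℕ) : IsOpen (Bs k) := exists_basis.choose_spec.1 k

theorem Bs_basis {O : Set Om} (hO : IsOpen O) {x : Om} (hx : x ∈ O) : ∃ k, x ∈ Bs k ∧ Bs k ⊆ O :=
  exists_basis.choose_spec.2 O hO x hx

/-- Finite unions of differences. -/
noncomputable def UU (u : Finset (ℕ × Finset ℕ)) : Set Om := ⋃ a ∈ u, (Bs a.1 \ ⋃ k ∈ a.2, Bs k)

theorem exists_enum : ∃ d : ℕ → Finset (ℕ × Finset ℕ), Function.Surjective d :=
  exists_surjective_nat _

open Classical in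
/-- The sets coded by natural numbers, with small measure. -/
noncomputable def W (n m : ℕ) : Set Om :=
  if mu (UU (exists_enum.choose m)) ≤ (1 / 2) ^ n then UU (exists_enum.choose m) else ∅

theorem mu_W (n m : ℕ) : mu (W n m) ≤ (1 / 2) ^ n := by
  unfold W
  split_ifs with h
  · exact h
  · simp

theorem exists_W {n : ℕ} {u : Finset (ℕ × Finset ℕ)} (h : mu (UU u) ≤ (1 / 2) ^ n) :
    ∃ m, W n m = UU u := by
  obtain ⟨m, hm⟩ := exists_enum.choose_spec u
  refine ⟨m, ?_⟩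
  unfold W
  rw [hm, if_pos h]

theorem tsum_half : ∑' r : ℕ, (1 / 2 : ℝ≥0∞) ^ r ≠ ∞ := by
  rw [ENNReal.tsum_geometric]
  have h5 : (1 : ℝ≥0∞) - 1 / 2 = 1 / 2 := by
    rw [one_div]
    exact ENNReal.one_sub_inv_two
  rw [h5]
  simp

/-- Codes of null sets. -/
theorem exists_codeFun {V : Set Om} (hV : mu V = 0) :
    ∃ g : ℕ → ℕ, ∀ x ∈ V, ∃ᶠ n in atTop, x ∈ W n (g n) := by
  classical
  have h1 : ∀ r : ℕ, ∃ O, V ⊆ O ∧ IsOpen O ∧ mu O < (1 / 2) ^ r := fun r => by
    refine V.exists_isOpen_lt_of_lt ((1 / 2) ^ r) ?_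
    rw [hV]
    exact ENNReal.pow_pos (by simp) r
  choose O hVO hO hOr using h1
  -- disjoint pieces
  let us : ℕ → ℕ → Finset (ℕ × Finset ℕ) := fun r k => if Bs k ⊆ O r then
    {(k, (Finset.range k).filter fun k' => Bs k' ⊆ O r)} else ∅
  have hU1 : ∀ r k, Bs k ⊆ O r → UU (us r k) = Bs k \ ⋃ k' ∈ (Finset.range k).filter
      (fun k' => Bs k' ⊆ O r), Bs k' := by
    intro r k h
    simp only [us, if_pos h, UU]
    simp
  have hU0 : ∀ r k, ¬ Bs k ⊆ O r → UU (us r k) = ∅ := by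
    intro r k h
    simp only [us, if_neg h, UU]
    simp
  have hUm : ∀ u, MeasurableSet (UU u) := fun u => by
    refine Finset.measurableSet_biUnion _ fun a _ => ?_
    exact (Bs_open _).measurableSet.diff (Finset.measurableSet_biUnion _ fun k _ =>
      (Bs_open k).measurableSet)
  have hdisj : ∀ r, Pairwise (Function.onFun Disjoint fun k => UU (us r k)) := by
    intro r
    have key : ∀ k l, k < l → Disjoint (UU (us r k)) (UU (us r l)) := by
      intro k l hkl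
      rw [Set.disjoint_left]
      intro x hx hy
      by_cases hk : Bs k ⊆ O r
      · by_cases hl : Bs l ⊆ O r
        · rw [hU1 r k hk] at hx
          rw [hU1 r l hl] at hy
          exact hy.2 (mem_iUnion₂.2 ⟨k, Finset.mem_filter.2 ⟨Finset.mem_range.2 hkl, hk⟩, hx.1⟩)
        · rw [hU0 r l hl] at hy
          exact hy
      · rw [hU0 r k hk] at hx
        exact hx
    intro k l hkl
    rcases lt_or_gt_of_ne hkl with h | h
    · exact key k l h
    · exact (key l k h).symm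
  have hsub : ∀ r, (⋃ k, UU (us r k)) ⊆ O r := by
    intro r x hx
    obtain ⟨k, hk⟩ := mem_iUnion.1 hx
    by_cases h : Bs k ⊆ O r
    · rw [hU1 r k h] at hk
      exact h hk.1
    · rw [hU0 r k h] at hk
      exact hk.elim
  have hcov : ∀ r, ∀ x ∈ O r, ∃ k, x ∈ UU (us r k) := by
    intro r x hx
    have h2 : ∃ k, x ∈ Bs k ∧ Bs k ⊆ O r := Bs_basis (hO r) hx
    refine ⟨Nat.find h2, ?_⟩
    have h3 := Nat.find_spec h2
    rw [hU1 r _ h3.2]
    refine ⟨h3.1, fun h4 => ?_⟩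
    obtain ⟨k', hk', h5⟩ := mem_iUnion₂.1 h4
    rw [Finset.mem_filter, Finset.mem_range] at hk'
    exact Nat.find_min h2 hk'.1 ⟨h5, hk'.2⟩
  have hsum : ∀ r, ∑' k, mu (UU (us r k)) ≤ (1 / 2) ^ r := by
    intro r
    rw [← measure_iUnion (hdisj r) fun k => hUm _]
    exact (measure_mono (hsub r)).trans (hOr r).le
  -- one sequence
  let v : ℕ → Finset (ℕ × Finset ℕ) := fun l => us (Nat.unpair l).1 (Nat.unpair l).2
  have hv : ∑' l, mu (UU (v l)) ≠ ∞ := by
    have h2 : ∑' l, mu (UU (v l)) = ∑' p : ℕ × ℕ, mu (UU (us p.1 p.2)) :=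
      (Nat.pairEquiv.symm.tsum_eq (fun p : ℕ × ℕ => mu (UU (us p.1 p.2))))
    rw [h2, ENNReal.tsum_prod']
    exact ne_top_of_le_ne_top tsum_half (ENNReal.tsum_le_tsum hsum)
  have hM : ∀ n : ℕ, ∃ M : ℕ, n ≤ M ∧ ∑' k, mu (UU (v (k + M))) ≤ (1 / 2) ^ n := by
    intro n
    have h2 := ENNReal.tendsto_sum_nat_add (fun l => mu (UU (v l))) hv
    have h3 : (0 : ℝ≥0∞) < (1 / 2) ^ n := ENNReal.pow_pos (by simp) n
    obtain ⟨N, hN1, hN2⟩ := ((h2.eventually (ge_mem_nhds h3)).and (eventually_ge_atTop n)).exists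
    exact ⟨N, hN2, hN1⟩
  choose M hM1 hM2 using hM
  let w : ℕ → Finset (ℕ × Finset ℕ) := fun n => (Finset.Ico (M n) (M (n + 1))).biUnion v
  have hUw : ∀ n, UU (w n) = ⋃ l ∈ Finset.Ico (M n) (M (n + 1)), UU (v l) := by
    intro n
    ext x
    simp only [UU, w, mem_iUnion, Finset.mem_biUnion]
    constructor
    · rintro ⟨a, ⟨l, hl, ha⟩, hx⟩
      exact ⟨l, hl, a, ha, hx⟩
    · rintro ⟨l, hl, a, ha, hx⟩
      exact ⟨a, ⟨l, hl, ha⟩, hx⟩
  have hw : ∀ n, mu (UU (w n)) ≤ (1 / 2) ^ n := by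
    intro n
    rw [hUw]
    refine (measure_biUnion_finset_le _ _).trans (le_trans ?_ (hM2 n))
    rw [Finset.sum_Ico_eq_sum_range]
    simp_rw [add_comm (M n)]
    exact ENNReal.sum_le_tsum _
  have hg : ∀ n, ∃ m, W n m = UU (w n) := fun n => exists_W (hw n)
  choose g hg using hg
  refine ⟨g, fun x hx => ?_⟩
  rw [frequently_atTop]
  intro a
  -- a large `l`
  obtain ⟨k, hk⟩ := hcov ((Finset.range (a + 1)).sup M) x (hVO _ hx)
  set r := (Finset.range (a + 1)).sup M with hr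
  have hl : r ≤ Nat.pair r k := Nat.left_le_pair r k
  have hxl : x ∈ UU (v (Nat.pair r k)) := by
    show x ∈ UU (us (Nat.unpair (Nat.pair r k)).1 (Nat.unpair (Nat.pair r k)).2)
    rw [Nat.unpair_pair]
    exact hk
  have hex : ∃ n, Nat.pair r k < M n := ⟨Nat.pair r k + 1, (Nat.lt_succ_self _).trans_le (hM1 _)⟩
  have hfs := Nat.find_spec hex
  have hfm : ∀ {m}, m < Nat.find hex → M m ≤ Nat.pair r k := fun h => not_lt.1 (Nat.find_min hex h)
  have hgt : a < Nat.find hex := by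
    by_contra hcon
    rw [not_lt] at hcon
    have h2 : M (Nat.find hex) ≤ r := Finset.le_sup (f := M) (Finset.mem_range.2 (by omega))
    omega
  obtain ⟨n, hn⟩ : ∃ n, Nat.find hex = n + 1 := ⟨Nat.find hex - 1, by omega⟩
  refine ⟨n, by omega, ?_⟩
  rw [hg, hUw]
  refine mem_iUnion₂.2 ⟨Nat.pair r k, Finset.mem_Ico.2 ⟨hfm (by omega), ?_⟩, hxl⟩
  rw [← hn]
  exact hfs

/-- Null sets with localized codes have a null union. -/
theorem null_of_loc {S : ℕ → Finset ℕ} (hS : ∑' n, ((S n).card : ℝ≥0∞) * (1 / 2) ^ n ≠ ∞) :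
    mu {x | ∃ g : ℕ → ℕ, Loc g S ∧ ∃ᶠ n in atTop, x ∈ W n (g n)} = 0 := by
  have h1 : mu {x | ∃ᶠ n in atTop, x ∈ ⋃ m ∈ S n, W n m} = 0 := by
    refine measure_setOfPred_frequently_eq_zero (p := fun n x => x ∈ ⋃ m ∈ S n, W n m) ?_
    refine ne_top_of_le_ne_top hS (ENNReal.tsum_le_tsum fun n => ?_)
    have h2 : {x | x ∈ ⋃ m ∈ S n, W n m} = ⋃ m ∈ S n, W n m := rfl
    rw [h2]
    refine (measure_biUnion_finset_le _ _).trans ((Finset.sum_le_card_nsmul _ _ _ fun m _ =>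
      mu_W n m).trans (le_of_eq (nsmul_eq_mul _ _)))
  refine measure_mono_null ?_ h1
  rintro x ⟨g, hg, hx⟩
  exact (hx.and_eventually hg).mono fun n hn => mem_iUnion₂.2 ⟨g n, hn.2, hn.1⟩

end Q163.AC
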