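import Pool.Agent.Q163.AC.E

/-!
# The least family which is not localized, made disjoint
-/

set_option autoImplicit false

namespace Q163.AC

open MeasureTheory Set Filter Topology Cardinal
open scoped ENNReal

/-- The family is not localized by any small slalom. -/
def NL (F : Set (ℕ → ℕ)) : Prop := ∀ S, Small S → ∃ f ∈ F, ¬ Loc f S

/-- The least cardinality of a family which is not localized. -/
noncomputable def θ : Cardinal.{0} := sInf {c | ∃ F : Set (ℕ → ℕ), #F = c ∧ NL F}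

theorem NL_univ : NL Set.univ := by
  intro S _
  refine ⟨fun n => (S n).sup id + 1, mem_univ _, fun h => ?_⟩
  obtain ⟨n, hn⟩ := h.exists
  have h1 : (S n).sup id + 1 ≤ (S n).sup id := Finset.le_sup (f := id) hn
  omega

theorem exists_theta : ∃ F : Set (ℕ → ℕ), #F = θ ∧ NL F :=
  csInf_mem (s := {c | ∃ F : Set (ℕ → ℕ), #F = c ∧ NL F}) ⟨_, Set.univ, rfl, NL_univ⟩

theorem theta_le {F : Set (ℕ → ℕ)} (h : NL F) : θ ≤ #F := csInf_le' ⟨F, rfl, h⟩

theorem exists_loc {F : Set (ℕ → ℕ)} (h : #F < θ) : ∃ S, Small S ∧ ∀ f ∈ F, Loc f S := by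
  by_contra hcon
  push Not at hcon
  exact absurd (theta_le (F := F) fun S hS => hcon S hS) (not_le.2 h)

/-- Slaloms of total weight at most one. -/
def Tiny (R : ℕ → Finset ℕ) : Prop := ∑' n, ((R n).card : ℝ≥0∞) * (1 / 2) ^ n ≤ 1

theorem exists_tiny {F : Set (ℕ → ℕ)} (h : #F < θ) : ∃ R, Tiny R ∧ ∀ f ∈ F, Loc f R := by
  obtain ⟨S, hS, hF⟩ := exists_loc h
  have h2 := ENNReal.tendsto_sum_nat_add (fun n => ((S n).card : ℝ≥0∞) * (1 / 2) ^ n) hS
  obtain ⟨N, hN⟩ := (h2.eventually (ge_mem_nhds one_pos)).exists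
  refine ⟨fun n => if N ≤ n then S n else ∅, ?_, fun f hf => ?_⟩
  · unfold Tiny
    rw [← Summable.sum_add_tsum_nat_add' (k := N) ENNReal.summable]
    rw [Finset.sum_eq_zero, zero_add]
    · refine le_trans (le_of_eq (tsum_congr fun k => ?_)) hN
      have h3 : N ≤ k + N := Nat.le_add_left _ _
      simp only [h3, if_true]
    · intro n hn
      have h3 : ¬ N ≤ n := not_le.2 (Finset.mem_range.1 hn)
      simp only [h3, if_false]
      simp
  · filter_upwards [hF f hf, eventually_ge_atTop N] with n hn hnN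
    simp only [hnN, if_true]
    exact hn

theorem Tiny.small {R : ℕ → Finset ℕ} (h : Tiny R) : Small R :=
  ne_top_of_le_ne_top ENNReal.one_ne_top h

open Classical in
/-- A tiny slalom which localizes the family. -/
noncomputable def slal (H : Set (ℕ → ℕ)) : ℕ → Finset ℕ :=
  if h : ∃ R, Tiny R ∧ ∀ f ∈ H, Loc f R then h.choose else fun _ => ∅

theorem slal_tiny (H : Set (ℕ → ℕ)) : Tiny (slal H) := by
  unfold slal
  split_ifs with h
  · exact h.choose_spec.1
  · simp [Tiny]

theorem slal_loc {H : Set (ℕ → ℕ)} (h : #H < θ) : ∀ f ∈ H, Loc f (slal H) := by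
  have h' := exists_tiny h
  unfold slal
  rw [dif_pos h']
  exact h'.choose_spec.2

/-- A function which avoids the slalom and encodes `g`. -/
def avoid (R : ℕ → Finset ℕ) (g : ℕ → ℕ) : ℕ → ℕ := fun n => Nat.pair ((R n).sup id + 1) (g n)

theorem avoid_notMem (R : ℕ → Finset ℕ) (g : ℕ → ℕ) (n : ℕ) : avoid R g n ∉ R n := by
  intro h
  have h1 : avoid R g n ≤ (R n).sup id := Finset.le_sup (f := id) h
  have h2 : (R n).sup id + 1 ≤ avoid R g n := Nat.left_le_pair _ _
  omega

theorem loc_avoid {R S : ℕ → Finset ℕ} {g : ℕ → ℕ} (h : Loc (avoid R g) S) :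
    Loc g fun n => (S n).image fun m => (Nat.unpair m).2 := by
  filter_upwards [h] with n hn
  refine Finset.mem_image.2 ⟨_, hn, ?_⟩
  simp [avoid]

theorem small_image {S : ℕ → Finset ℕ} (h : Small S) (φ : ℕ → ℕ) :
    Small fun n => (S n).image φ := h.mono fun _ => Finset.card_image_le

/-- The index type. -/
abbrev I : Type := θ.ord.ToType

theorem mk_I : #I = θ := mk_ord_toType _

theorem exists_fs : ∃ fs : I → ℕ → ℕ, NL (range fs) := by
  obtain ⟨F, hF, hNL⟩ := exists_theta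
  obtain ⟨e⟩ := Cardinal.eq.1 (mk_I.trans hF.symm)
  refine ⟨fun i => (e i : ℕ → ℕ), ?_⟩
  have : range (fun i => (e i : ℕ → ℕ)) = F := by
    ext f
    constructor
    · rintro ⟨i, rfl⟩
      exact (e i).2
    · intro hf
      exact ⟨e.symm ⟨f, hf⟩, by simp⟩
  rw [this]
  exact hNL

/-- A family which is not localized. -/
noncomputable def fs : I → ℕ → ℕ := exists_fs.choose

/-- The functions, by recursion. -/
noncomputable def ff : I → ℕ → ℕ :=
  (wellFounded_lt (α := I)).fix fun i d => avoid (slal {g | ∃ j, ∃ h : j < i, g = d j h}) (fs i)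

/-- The slaloms. -/
noncomputable def RR (i : I) : ℕ → Finset ℕ := slal {g | ∃ j, ∃ _ : j < i, g = ff j}

theorem ff_eq (i : I) : ff i = avoid (RR i) (fs i) := by
  rw [ff, WellFounded.fix_eq]
  rfl

theorem RR_tiny (i : I) : Tiny (RR i) := slal_tiny _

theorem ff_notMem (i : I) (n : ℕ) : ff i n ∉ RR i n := by
  rw [ff_eq]
  exact avoid_notMem _ _ _

theorem ff_loc {i j : I} (h : j < i) : Loc (ff j) (RR i) := by
  refine slal_loc ?_ _ ⟨j, h, rfl⟩
  have h1 : {g | ∃ j, ∃ _ : j < i, g = ff j} = ff '' Iio i := by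
    ext g
    constructor
    · rintro ⟨j, h, rfl⟩
      exact ⟨j, h, rfl⟩
    · rintro ⟨j, h, rfl⟩
      exact ⟨j, h, rfl⟩
  rw [h1]
  refine mk_image_le.trans_lt ?_
  have := mk_Iio_lt (α := I) i (by simp [I])
  rwa [mk_I] at this

theorem ff_NL {S : ℕ → Finset ℕ} (hS : Small S) : ∃ i, ∃ᶠ n in atTop, ff i n ∉ S n := by
  obtain ⟨f, ⟨i, rfl⟩, hi⟩ := exists_fs.choose_spec _ (small_image hS fun m => (Nat.unpair m).2)
  refine ⟨i, ?_⟩
  by_contra hcon
  rw [not_frequently] at hcon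
  refine hi (loc_avoid (R := RR i) (S := S) ?_)
  have h1 : avoid (RR i) (fs i) = ff i := (ff_eq i).symm
  show Loc (avoid (RR i) (fs i)) S
  rw [h1]
  filter_upwards [hcon] with n hn
  exact not_not.1 hn

/-- The relation between points and pairs of an index and a sequence. -/
def Rel (x : Om) (i : I) (ζ : ℕ → Bool) : Prop := Clean x (RR i) ∧ Dec x (ff i) ζ

theorem Rel.unique {x : Om} {i j : I} {ζ ζ' : ℕ → Bool} (h : Rel x i ζ) (h' : Rel x j ζ') :
    i = j ∧ ζ = ζ' := by
  have hij : i = j := by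
    rcases lt_trichotomy i j with hlt | heq | hlt
    · exact absurd h.2 (h'.1.not_dec (ff_loc hlt) ζ)
    · exact heq
    · exact absurd h'.2 (h.1.not_dec (ff_loc hlt) ζ')
  subst hij
  exact ⟨rfl, h.2.unique h'.2⟩

/-- For every small open set there is an index such that every sequence is decoded from a point
outside. -/
theorem exists_rel {O : Set Om} (hO : IsOpen O) (hO1 : mu.real O ≤ 1 / 16) :
    ∃ i, ∀ ζ, ∃ x, x ∉ O ∧ Rel x i ζ := by
  obtain ⟨S, hS1, hS2⟩ := exists_slalom hO.measurableSet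
  obtain ⟨i, hi⟩ := ff_NL hS1
  refine ⟨i, fun ζ => ?_⟩
  obtain ⟨x, h1, h2, h3⟩ := exists_code hO hO1 (RR_tiny i) ζ hS2 hi (ff_notMem i)
  exact ⟨x, h1, h2, h3⟩

/-- If the space is a union of `κ` null sets, then `θ ≤ κ`. -/
theorem theta_le_of_null {K : Type} (V : K → Set Om) (hV : ∀ k, mu (V k) = 0)
    (hU : ⋃ k, V k = Set.univ) : θ ≤ #K := by
  by_contra hcon
  rw [not_le] at hcon
  have h1 := fun k => exists_codeFun (hV k)
  choose g hg using h1
  obtain ⟨S, hS1, hS2⟩ := exists_loc (F := range g) (mk_range_le.trans_lt hcon)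
  have h2 := null_of_loc hS1
  have h3 : {x | ∃ g : ℕ → ℕ, Loc g S ∧ ∃ᶠ n in atTop, x ∈ W n (g n)} = Set.univ := by
    refine eq_univ_of_forall fun x => ?_
    have hx : x ∈ ⋃ k, V k := hU ▸ mem_univ x
    obtain ⟨k, hk⟩ := mem_iUnion.1 hx
    exact ⟨g k, hS2 _ ⟨k, rfl⟩, hg k x hk⟩
  rw [h3, measure_univ] at h2
  exact one_ne_zero h2

end Q163.AC
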