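import Pool.Agent.Q163.AB.D

/-!
# Abstractly Borelian groups: the measure, for an explicit injection
-/

set_option autoImplicit false

namespace Q163.AB

open Set Cardinal MeasureTheory Q215.Gr

universe u v

variable {G : Type u} [Group G]

/-- The last step, for an injection onto a set on which the rank is injective. -/
theorem good_of_inj {X : Type v} [MeasurableSpace X] (μ : Measure X) (hμ : μ univ = 1)
    (hμ0 : ∀ x, μ {x} = 0) {j : X → ℕ → Bool} (hj : Measurable j) (hji : Function.Injective j)
    (hG : #G ≤ 𝔠) {ι : Type u} [LinearOrder ι] [WellFoundedLT ι] [Nonempty ι] {C : ι → Subgroup G}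
    (hC : Monotone C) (hall : ∀ x, ∃ i, x ∈ C i) {i : X → G} (hi : Function.Injective i)
    (hinj : ∀ d ∈ range i, ∀ d' ∈ range i, rk C d = rk C d' → d = d')
    (hsq : @MeasurableSet (G × G) ((MeasurableSpace.map i inferInstance).prod
      (MeasurableSpace.map i inferInstance)) {q : G × G | q.1 ∈ range i ∧ q.2 = q.1 * q.1}) :
    Good G := by
  classical
  have h1 : Cardinal.lift.{0} #G ≤ Cardinal.lift.{u} #(ℕ → Bool) := by
    simpa using hG
  obtain ⟨e₁⟩ := Cardinal.lift_mk_le'.1 h1
  let D : Set G := range i
  have hiD : ∀ x, i x ∈ D := fun x => ⟨x, rfl⟩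
  have hDi : ∀ d ∈ D, ∃ x, i x = d := fun d hd => hd
  letI mS : MeasurableSpace G := MeasurableSpace.map i inferInstance
  have hmS : ∀ S : Set G, MeasurableSet S ↔ MeasurableSet (i ⁻¹' S) := fun S => Iff.rfl
  have hmi : Measurable i := fun S hS => hS
  have hD : ∀ S : Set G, (∀ x ∈ S, x ∉ D) → MeasurableSet S := by
    intro S hS
    rw [hmS]
    have h2 : i ⁻¹' S = ∅ := by
      ext x
      exact ⟨fun hx => hS _ hx (hiD x), fun hx => hx.elim⟩
    rw [h2]
    exact MeasurableSet.empty
  -- a measurable injection
  let e : G → ℕ → Bool := fun g n => Nat.casesOn n (decide (g ∈ D)) fun m =>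
    if h : ∃ x, i x = g then j h.choose m else e₁ g m
  have he : Function.Injective e := by
    intro g g' h
    have h0 : decide (g ∈ D) = decide (g' ∈ D) := congrFun h 0
    have h1 : ∀ m, (if h : ∃ x, i x = g then j h.choose m else e₁ g m) =
        (if h : ∃ x, i x = g' then j h.choose m else e₁ g' m) := fun m => congrFun h (m + 1)
    have h2 : g ∈ D ↔ g' ∈ D := decide_eq_decide.1 h0
    by_cases hg : g ∈ D
    · have hx := hDi g hg
      have hx' := hDi g' (h2.1 hg)
      have h3 : j hx.choose = j hx'.choose := by
        funext m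
        have := h1 m
        rw [dif_pos hx, dif_pos hx'] at this
        exact this
      have h4 := hji h3
      rw [← hx.choose_spec, ← hx'.choose_spec, h4]
    · have hx : ¬ ∃ x, i x = g := fun ⟨x, hx⟩ => hg (hx ▸ hiD x)
      have hx' : ¬ ∃ x, i x = g' := fun ⟨x, hx⟩ => hg (h2.2 (hx ▸ hiD x))
      refine e₁.injective (funext fun m => ?_)
      have := h1 m
      rw [dif_neg hx, dif_neg hx'] at this
      exact this
  have hem : Measurable e := by
    have h2 : Measurable (e ∘ i) := by
      refine measurable_pi_iff.2 fun n => ?_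
      cases n with
      | zero =>
        have h3 : (fun x => (e ∘ i) x 0) = fun _ => true := by
          funext x
          show decide (i x ∈ D) = true
          exact decide_eq_true (hiD x)
        rw [h3]
        exact measurable_const
      | succ m =>
        have h3 : (fun x => (e ∘ i) x (m + 1)) = fun x => j x m := by
          funext x
          have hx : ∃ y, i y = i x := ⟨x, rfl⟩
          show (if h : ∃ y, i y = i x then j h.choose m else e₁ (i x) m) = j x m
          rw [dif_pos hx, hi hx.choose_spec]
        rw [h3]
        exact (measurable_pi_apply m).comp hj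
    intro S hS
    exact h2 hS
  have hgr := meas_graph hC hall hinj hD he hem (cl_group hG) hsq
  obtain ⟨A, hA, hZ⟩ := prod_le_fam mS _ hgr
  have hle : MeasurableSpace.generateFrom (range A) ≤ mS := by
    refine MeasurableSpace.generateFrom_le ?_
    rintro _ ⟨n, rfl⟩
    exact hA n
  refine ⟨A, ⟨(Measure.map i μ).trim hle, ?_, fun x hx => ?_⟩, hZ⟩
  · rw [trim_measurableSet_eq hle MeasurableSet.univ, Measure.map_apply hmi MeasurableSet.univ,
      preimage_univ, hμ]
  · rw [trim_measurableSet_eq hle hx, Measure.map_apply hmi (hle _ hx)]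
    rcases (i ⁻¹' {x}).eq_empty_or_nonempty with h2 | ⟨y, hy⟩
    · rw [h2, measure_empty]
    · have h3 : i ⁻¹' {x} = {y} := by
        ext z
        constructor
        · intro hz
          exact hi (Eq.trans hz (Eq.symm hy))
        · intro hz
          have hz' : z = y := hz
          rw [hz']
          exact hy
      rw [h3]
      exact hμ0 y

end Q163.AB
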