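import Pool.Agent.Q163.AC.F

/-!
# The trace of the measure, and open sets
-/

set_option autoImplicit false

namespace Q163.AC

open MeasureTheory Set Filter Topology Cardinal
open scoped ENNReal

theorem mu_singleton (x : Om) : mu {x} = 0 := by
  have h1 : ∀ M : ℕ, mu {x} ≤ ENNReal.ofReal (31 / 32) ^ M := by
    intro M
    let s : Finset Ev := (Finset.range M).map ⟨fun m => (0, m, true), fun a b h => by simpa using h⟩
    have h2 : mu {x} ≤ mu (Set.pi (s : Set Ev) fun e => {x e}) := by
      refine measure_mono ?_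
      rintro y rfl
      intro e _
      rfl
    refine h2.trans ?_
    rw [mu, Measure.infinitePi_pi _ (fun _ _ => MeasurableSet.singleton _)]
    have h3 : ∏ e ∈ s, bern e.1 {x e} ≤ ∏ _e ∈ s, ENNReal.ofReal (31 / 32) := by
      refine Finset.prod_le_prod' fun e he => ?_
      obtain ⟨m, -, rfl⟩ := Finset.mem_map.1 he
      have hq : q 0 = 1 / 32 := by norm_num [q]
      cases x (0, m, true)
      · show bern 0 {false} ≤ _
        rw [bern_false, hq]
        refine ENNReal.ofReal_le_ofReal (by norm_num)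
      · show bern 0 {true} ≤ _
        rw [bern_true, hq]
        refine ENNReal.ofReal_le_ofReal (by norm_num)
    refine h3.trans (le_of_eq ?_)
    rw [Finset.prod_const]
    simp [s]
  have h2 : Tendsto (fun M : ℕ => ENNReal.ofReal (31 / 32) ^ M) atTop (𝓝 0) := by
    refine ENNReal.tendsto_pow_atTop_nhds_zero_of_lt_one ?_
    rw [ENNReal.ofReal_lt_one]
    norm_num
  exact le_antisymm (ge_of_tendsto' h2 h1) zero_le

theorem mk_Om : #Om = 𝔠 := by
  simp [Om, Ev]

/-- The trace of the measure on a set which is not null. -/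
theorem exists_trace {V : Set Om} (hV : mu V ≠ 0) : ∃ ν : Measure V, ν Set.univ = 1 ∧
    ∀ x, ν {x} = 0 := by
  let o : OuterMeasure V := OuterMeasure.comap Subtype.val mu.toOuterMeasure
  have ho : ∀ s : Set V, o s = mu (Subtype.val '' s) := fun s => rfl
  have h : (inferInstance : MeasurableSpace V) ≤ o.caratheodory := by
    rintro _ ⟨T, hT, rfl⟩ t
    rw [ho, ho, ho, image_inter_preimage]
    have h1 : Subtype.val '' (t \ Subtype.val ⁻¹' T) = (Subtype.val '' t) \ T := by
      ext x
      constructor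
      · rintro ⟨y, ⟨hy, hyT⟩, rfl⟩
        exact ⟨⟨y, hy, rfl⟩, hyT⟩
      · rintro ⟨⟨y, hy, rfl⟩, hyT⟩
        exact ⟨y, ⟨hy, hyT⟩, rfl⟩
    rw [h1, measure_inter_add_sdiff _ hT]
  have h2 : o.toMeasure h Set.univ = mu V := by
    rw [toMeasure_apply _ _ MeasurableSet.univ, ho, image_univ, Subtype.range_coe]
  refine ⟨(mu V)⁻¹ • o.toMeasure h, ?_, fun x => ?_⟩
  · rw [Measure.smul_apply, h2, smul_eq_mul]
    exact ENNReal.inv_mul_cancel hV (measure_ne_top _ _)
  · rw [Measure.smul_apply, toMeasure_apply _ _ (MeasurableSet.singleton x), ho, image_singleton,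
      mu_singleton, smul_zero]

/-- The small open sets. -/
abbrev SO : Type := {O : Set Om // IsOpen O ∧ mu.real O ≤ 1 / 16}

theorem mk_SO : #SO ≤ 𝔠 := by
  have h : Function.Injective fun O : SO => {k | Bs k ⊆ O.1} := by
    intro O O' h0
    have h : ({k | Bs k ⊆ O.1} : Set ℕ) = {k | Bs k ⊆ O'.1} := h0
    refine Subtype.ext (Subset.antisymm ?_ ?_)
    · intro x hx
      obtain ⟨k, h1, h2⟩ := Bs_basis O.2.1 hx
      have h3 : k ∈ {k | Bs k ⊆ O.1} := h2
      rw [h] at h3
      exact h3 h1
    · intro x hx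
      obtain ⟨k, h1, h2⟩ := Bs_basis O'.2.1 hx
      have h3 : k ∈ {k | Bs k ⊆ O'.1} := h2
      rw [← h] at h3
      exact h3 h1
  refine (mk_le_of_injective h).trans ?_
  rw [mk_set, mk_nat, two_power_aleph0]

/-- A set which meets the complement of every small open set is not null. -/
theorem not_null {x : SO → Om} (hx : ∀ O, x O ∉ O.1) : mu (range x) ≠ 0 := by
  intro h0
  obtain ⟨O, h1, h2, h3⟩ := (range x).exists_isOpen_lt_of_lt (μ := mu) (ENNReal.ofReal (1 / 16)) (by
    rw [h0]
    exact ENNReal.ofReal_pos.2 (by norm_num))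
  have h4 : mu.real O ≤ 1 / 16 := by
    refine ENNReal.toReal_le_of_le_ofReal (by norm_num) h3.le
  exact hx ⟨O, h2, h4⟩ (h1 ⟨_, rfl⟩)

/-! ### Measurability of the relation -/

instance instI : MeasurableSpace I := ⊤

theorem meas_I (s : Set I) : MeasurableSet s := trivial

theorem meas_mark (n : ℕ) (b : Bool) :
    MeasurableSet {p : Om × I × (ℕ → Bool) | p.1 (n, ff p.2.1 n, b) = true} := by
  have h1 : {p : Om × I × (ℕ → Bool) | p.1 (n, ff p.2.1 n, b) = true} =
      ⋃ m, ((fun p : Om × I × (ℕ → Bool) => p.1) ⁻¹' Ae (n, m, b)) ∩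
        ((fun p : Om × I × (ℕ → Bool) => p.2.1) ⁻¹' {i | ff i n = m}) := by
    ext p
    constructor
    · intro h
      exact mem_iUnion.2 ⟨ff p.2.1 n, h, rfl⟩
    · intro h
      obtain ⟨m, h1, h2⟩ := mem_iUnion.1 h
      have h2' : ff p.2.1 n = m := h2
      show p.1 (n, ff p.2.1 n, b) = true
      rw [h2']
      exact h1
  rw [h1]
  exact MeasurableSet.iUnion fun m => (measurable_fst (meas_Ae _)).inter
    ((measurable_fst.comp measurable_snd) (meas_I _))

theorem meas_hit (n : ℕ) : MeasurableSet {p : Om × I × (ℕ → Bool) | hit p.1 (ff p.2.1) n} := by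
  have h1 : {p : Om × I × (ℕ → Bool) | hit p.1 (ff p.2.1) n} =
      ⋃ b, {p : Om × I × (ℕ → Bool) | p.1 (n, ff p.2.1 n, b) = true} := by
    ext p
    simp [hit]
  rw [h1]
  exact MeasurableSet.iUnion fun b => meas_mark n b

theorem meas_cnt (n : ℕ) : Measurable fun p : Om × I × (ℕ → Bool) => cnt p.1 (ff p.2.1) n := by
  classical
  induction n with
  | zero => simp [cnt]
  | succ n ih =>
    have h1 : (fun p : Om × I × (ℕ → Bool) => cnt p.1 (ff p.2.1) (n + 1)) =
        fun p => cnt p.1 (ff p.2.1) n + if p ∈ {p : Om × I × (ℕ → Bool) | hit p.1 (ff p.2.1) n}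
          then 1 else 0 := by
      funext p
      unfold cnt
      rw [Finset.range_add_one, Finset.filter_insert]
      by_cases h : hit p.1 (ff p.2.1) n
      · rw [if_pos h, if_pos (show p ∈ {p : Om × I × (ℕ → Bool) | hit p.1 (ff p.2.1) n} from h),
          Finset.card_insert_of_notMem]
        simp
      · rw [if_neg h, if_neg (show p ∉ {p : Om × I × (ℕ → Bool) | hit p.1 (ff p.2.1) n} from h),
          add_zero]
    rw [h1]
    exact ih.add (Measurable.ite (meas_hit n) measurable_const measurable_const)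

theorem meas_Rel : MeasurableSet {p : Om × I × (ℕ → Bool) | Rel p.1 p.2.1 p.2.2} := by
  have h1 : {p : Om × I × (ℕ → Bool) | Rel p.1 p.2.1 p.2.2} =
      (⋂ n, ⋂ m, ⋂ b, (((fun p : Om × I × (ℕ → Bool) => p.1) ⁻¹' Ae (n, m, b)) ∩
        ((fun p : Om × I × (ℕ → Bool) => p.2.1) ⁻¹' {i | m ∈ RR i n}))ᶜ) ∩
      ((⋂ n, ⋂ b, {p : Om × I × (ℕ → Bool) | p.1 (n, ff p.2.1 n, b) = true}ᶜ ∪
        ⋃ c, ((fun p : Om × I × (ℕ → Bool) => cnt p.1 (ff p.2.1) n) ⁻¹' {c}) ∩
          ((fun p : Om × I × (ℕ → Bool) => p.2.2 c) ⁻¹' {b})) ∩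
      ⋂ N, ⋃ n, ⋃ (_ : N ≤ n), {p : Om × I × (ℕ → Bool) | hit p.1 (ff p.2.1) n}) := by
    ext p
    constructor
    · rintro ⟨h1, h2, h3⟩
      refine ⟨?_, ?_, ?_⟩
      · simp only [mem_iInter]
        rintro n m b ⟨h4, h5⟩
        have h6 : p.1 (n, m, b) = true := h4
        rw [h1 n m h5 b] at h6
        exact absurd h6 (by simp)
      · simp only [mem_iInter]
        intro n b
        by_cases h4 : p.1 (n, ff p.2.1 n, b) = true
        · exact Or.inr (mem_iUnion.2 ⟨_, rfl, h2 n b h4⟩)
        · exact Or.inl h4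
      · simp only [mem_iInter]
        intro N
        obtain ⟨n, h4, h5⟩ := (frequently_atTop.1 h3) N
        exact mem_iUnion.2 ⟨n, mem_iUnion.2 ⟨h4, h5⟩⟩
    · rintro ⟨h1, h2, h3⟩
      simp only [mem_iInter] at h1 h2 h3
      refine ⟨?_, ?_, ?_⟩
      · intro n m hm b
        cases h4 : p.1 (n, m, b)
        · rfl
        · exact absurd ⟨h4, hm⟩ (h1 n m b)
      · intro n b h4
        rcases h2 n b with h5 | h5
        · exact absurd h4 h5
        · obtain ⟨c, h6, h7⟩ := mem_iUnion.1 h5
          have h6' : cnt p.1 (ff p.2.1) n = c := h6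
          rw [h6']
          exact h7
      · rw [frequently_atTop]
        intro N
        obtain ⟨n, h4⟩ := mem_iUnion.1 (h3 N)
        obtain ⟨h5, h6⟩ := mem_iUnion.1 h4
        exact ⟨n, h5, h6⟩
  rw [h1]
  refine MeasurableSet.inter ?_ (MeasurableSet.inter ?_ ?_)
  · exact MeasurableSet.iInter fun n => MeasurableSet.iInter fun m => MeasurableSet.iInter fun b =>
      ((measurable_fst (meas_Ae _)).inter ((measurable_fst.comp measurable_snd) (meas_I _))).compl
  · exact MeasurableSet.iInter fun n => MeasurableSet.iInter fun b =>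
      (meas_mark n b).compl.union (MeasurableSet.iUnion fun c =>
        (meas_cnt n (MeasurableSet.singleton c)).inter
        (((measurable_pi_apply c).comp (measurable_snd.comp measurable_snd))
          (MeasurableSet.singleton b)))
  · exact MeasurableSet.iInter fun N => MeasurableSet.iUnion fun n => MeasurableSet.iUnion fun _ =>
      meas_hit n

end Q163.AC
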