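import Pool.Agent.Q163.AC.H

/-!
# Combinatorics of the continuum
-/

set_option autoImplicit false

namespace Q163.AC

open MeasureTheory Set Filter Topology Cardinal

/-- The index type of the continuum. -/
abbrev A : Type := (𝔠 : Cardinal.{0}).ord.ToType

theorem mk_A : #A = 𝔠 := mk_ord_toType _

theorem Iic_A (a : A) : #(Iic a) < 𝔠 := by
  have := mk_Iic_lt (α := A) a (by simp [A]) (by rw [mk_A]; exact aleph0_le_continuum)
  rwa [mk_A] at this

/-- There are few elements with a small initial segment. -/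
theorem mk_small (w : Cardinal.{0}) : #{a : A | #(Iio a) < w} ≤ w := by
  by_contra hcon
  rw [not_le] at hcon
  have h1 : w.ord < Ordinal.type (α := {a : A | #(Iio a) < w}) (· < ·) := by
    refine lt_of_le_of_ne (ord_le.2 ?_) fun h => ?_
    · rw [Ordinal.card_type]
      exact hcon.le
    · have h2 := congrArg Ordinal.card h
      rw [card_ord, Ordinal.card_type] at h2
      exact hcon.ne h2
  obtain ⟨a, ha⟩ := Ordinal.typein_surj (· < ·) h1
  have h2 : #(Iio a) = w := by
    have h3 := congrArg Ordinal.card ha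
    rw [card_ord] at h3
    exact h3
  have h3 : #(Iio a) ≤ #(Iio a.1) :=
    mk_le_of_injective (f := fun y : Iio a => (⟨y.1.1, y.2⟩ : Iio a.1)) fun y y' h => by
      have h4 : y.1.1 = y'.1.1 := congrArg (fun t : Iio a.1 => t.1) h
      exact Subtype.ext (Subtype.ext h4)
  rw [h2] at h3
  exact absurd a.2 (not_lt.2 h3)

theorem theta_le_cof (hnull : ∀ V : Set Om, #V < 𝔠 → mu V = 0) :
    θ ≤ (𝔠 : Cardinal.{0}).ord.cof := by
  obtain ⟨K, hK, hKc⟩ := Order.exists_cof_eq A
  obtain ⟨e⟩ := Cardinal.eq.1 (mk_Om.trans mk_A.symm)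
  rw [← Ordinal.cof_toType, ← hKc]
  refine theta_le_of_null (K := K) (fun k => {x | e x ≤ k.1}) (fun k => hnull _ ?_) ?_
  · refine lt_of_le_of_lt ?_ (Iic_A k.1)
    exact mk_le_of_injective (f := fun x : {x | e x ≤ k.1} => (⟨e x.1, x.2⟩ : Iic k.1))
      fun x y h => Subtype.ext (e.injective (congrArg Subtype.val h))
  · refine eq_univ_of_forall fun x => ?_
    obtain ⟨k, hk, hle⟩ := hK (e x)
    exact mem_iUnion.2 ⟨⟨k, hk⟩, hle⟩

section select

variable {L Z : Type} [LinearOrder L] [WellFoundedLT L] [Inhabited Z] (B : L → Set Z)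

open Classical in
/-- A selection of distinct elements, by recursion. -/
noncomputable def sel : L → Z :=
  (wellFounded_lt (α := L)).fix fun l d =>
    if h : ∃ z ∈ B l, ∀ m (hm : m < l), d m hm ≠ z then h.choose else default

open Classical in
theorem sel_eq (l : L) : sel B l =
    if h : ∃ z ∈ B l, ∀ m, m < l → sel B m ≠ z then h.choose else default := by
  rw [sel, WellFounded.fix_eq]

theorem sel_spec (h : ∀ l, #(Iio l) < #(B l)) (l : L) :
    sel B l ∈ B l ∧ ∀ m, m < l → sel B m ≠ sel B l := by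
  have h1 : ∃ z ∈ B l, ∀ m, m < l → sel B m ≠ z := by
    by_contra hcon
    push Not at hcon
    have h2 : B l ⊆ sel B '' Iio l := fun z hz => hcon z hz
    exact absurd ((mk_le_mk_of_subset h2).trans mk_image_le) (not_le.2 (h l))
  have h2 : sel B l = h1.choose := by rw [sel_eq, dif_pos h1]
  rw [h2]
  exact h1.choose_spec

theorem sel_inj (h : ∀ l, #(Iio l) < #(B l)) : Function.Injective (sel B) := by
  intro l m hlm
  rcases lt_trichotomy l m with h1 | h1 | h1
  · exact absurd hlm ((sel_spec B h m).2 l h1)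
  · exact h1
  · exact absurd hlm.symm ((sel_spec B h l).2 m h1)

end select

theorem theta_ne_zero : θ ≠ 0 := by
  intro h0
  obtain ⟨F, hF, hNL⟩ := exists_theta
  obtain ⟨f, hf, -⟩ := hNL (fun _ => ∅) (by simp [Small])
  rw [h0, mk_eq_zero_iff] at hF
  exact hF.elim ⟨f, hf⟩

/-- The assignment of the indices. -/
theorem exists_assign {Z : Type} [Inhabited Z] (w : Z → Cardinal.{0})
    (hw : ∀ c < 𝔠, (𝔠 : Cardinal.{0}).ord.cof ≤ #{z | c < w z})
    (hθ : θ ≤ (𝔠 : Cardinal.{0}).ord.cof) :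
    ∃ i : Z → I, ∀ (i₀ : I) (a : A), ∃ z, i z = i₀ ∧ #(Iio a) < w z := by
  obtain ⟨K, hK, hKc⟩ := Order.exists_cof_eq A
  rw [Ordinal.cof_toType] at hKc
  set κ : Cardinal.{0} := (𝔠 : Cardinal.{0}).ord.cof with hκ
  have hκ0 : ℵ₀ ≤ κ := Ordinal.aleph0_le_cof_iff.2
    (Ordinal.one_lt_cof_iff.2 (isSuccLimit_ord aleph0_le_continuum))
  have hI : Nonempty I := by
    rw [← mk_ne_zero_iff, mk_I]
    exact theta_ne_zero
  have hKn : Nonempty K := by
    rw [← mk_ne_zero_iff, hKc]
    exact (lt_of_lt_of_le aleph0_pos hκ0).ne'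
  have h1 : #(K × I) ≤ #κ.ord.ToType := by
    rw [mk_ord_toType, mk_prod, lift_id, lift_id, hKc, mk_I]
    exact (mul_le_mul_right hθ κ).trans (mul_eq_self hκ0).le
  obtain ⟨f⟩ := h1
  have hs := Function.invFun_surjective f.injective
  set s : κ.ord.ToType → K × I := Function.invFun f with hsdef
  let B : κ.ord.ToType → Set Z := fun l => {z | #(Iic (s l).1.1) < w z}
  have hB : ∀ l, #(Iio l) < #(B l) := by
    intro l
    refine lt_of_lt_of_le ?_ (hw _ (Iic_A (s l).1.1))
    have := mk_Iio_lt (α := κ.ord.ToType) l (by simp)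
    rwa [mk_ord_toType] at this
  have hinj := sel_inj B hB
  obtain ⟨i₁⟩ := hI
  refine ⟨Function.extend (sel B) (fun l => (s l).2) fun _ => i₁, fun i₀ a => ?_⟩
  obtain ⟨k, hk, hak⟩ := hK a
  obtain ⟨l, hl⟩ := hs (⟨k, hk⟩, i₀)
  refine ⟨sel B l, ?_, ?_⟩
  · rw [hinj.extend_apply, hl]
  · have h2 := (sel_spec B hB l).1
    refine lt_of_le_of_lt (mk_le_mk_of_subset ?_) h2
    rw [hl]
    exact fun b hb => (le_of_lt hb).trans hak

end Q163.AC
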