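import Pool.Agent.Q163.AC.J
import Pool.Agent.Q163.AC.G

/-!
# Abstractly Borelian groups: few squares, few square roots, small sets null
-/

set_option autoImplicit false

namespace Q163.AC

open MeasureTheory Set Cardinal Q215.Gr

theorem good_null {E : Type} [Group E] (hE : #E = 𝔠) (hZ : #(range fun x : E => x * x) < 𝔠)
    (hfib : ∀ z : E, #{x : E | x * x = z} < 𝔠) (hnull : ∀ V : Set Om, #V < 𝔠 → mu V = 0) :
    Q163.AB.Good E := by
  classical
  haveI : Inhabited E := ⟨1⟩
  have hinf : Infinite E := by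
    rw [infinite_iff, hE]
    exact aleph0_le_continuum
  have hc : #((range fun x : E => x * x)ᶜ : Set E) = 𝔠 := by
    rw [mk_compl_of_infinite _ (by rw [hE]; exact hZ), hE]
  obtain ⟨L, _, _, _, C, D, hC, hall, hsub, hD, hinj, h1⟩ :=
    Q163.AB.exists_chain ((range fun x : E => x * x)ᶜ) (by rw [hc]; exact aleph0_lt_continuum)
  rw [hc] at hD
  -- the sizes of the fibres in `D`
  let w : E → Cardinal.{0} := fun z => #{d : E | d ∈ D ∧ d * d = z}
  have hw : ∀ c < 𝔠, (𝔠 : Cardinal.{0}).ord.cof ≤ #{z | c < w z} := by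
    intro c hc'
    by_contra hcon
    rw [not_le] at hcon
    have hD1 : #{d : E | d ∈ D ∧ c < w (d * d)} < 𝔠 := by
      by_contra hcon'
      rw [not_lt] at hcon'
      obtain ⟨a, ha⟩ := infinite_pigeonhole_card
        (fun d : {d : E | d ∈ D ∧ c < w (d * d)} => (⟨d.1 * d.1, d.2.2⟩ : {z | c < w z}))
        𝔠 hcon' aleph0_le_continuum hcon
      refine absurd (ha.trans ?_) (not_le.2 (hfib a.1))
      refine mk_le_of_injective (f := fun x => (⟨x.1.1, ?_⟩ : {x : E | x * x = a.1})) ?_
      · exact congrArg Subtype.val x.2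
      · intro x y hxy
        exact Subtype.ext (Subtype.ext (congrArg (fun t : {x : E | x * x = a.1} => t.1) hxy))
    have hD2 : #{d : E | d ∈ D ∧ ¬ c < w (d * d)} < 𝔠 := by
      refine lt_of_le_of_lt ?_ (mul_lt_of_lt aleph0_le_continuum hZ hc')
      refine mk_le_mk_mul_of_mk_preimage_le
        (fun d : {d : E | d ∈ D ∧ ¬ c < w (d * d)} =>
          (⟨d.1 * d.1, d.1, rfl⟩ : (range fun x : E => x * x))) fun b => ?_
      by_cases hb : c < w b.1
      · refine le_trans (le_of_eq ?_) zero_le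
        rw [mk_eq_zero_iff]
        refine ⟨fun x => x.1.2.2 ?_⟩
        have h2 : x.1.1 * x.1.1 = b.1 := congrArg Subtype.val x.2
        rw [h2]
        exact hb
      · refine le_trans ?_ (not_lt.1 hb)
        refine mk_le_of_injective (f := fun x => (⟨x.1.1, x.1.2.1, ?_⟩ :
          {d : E | d ∈ D ∧ d * d = b.1})) ?_
        · exact congrArg Subtype.val x.2
        · intro x y hxy
          exact Subtype.ext (Subtype.ext
            (congrArg (fun t : {d : E | d ∈ D ∧ d * d = b.1} => t.1) hxy))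
    have hD3 : D ⊆ {d : E | d ∈ D ∧ c < w (d * d)} ∪ {d : E | d ∈ D ∧ ¬ c < w (d * d)} := by
      intro d hd
      by_cases h : c < w (d * d)
      · exact Or.inl ⟨hd, h⟩
      · exact Or.inr ⟨hd, h⟩
    have h2 := ((mk_le_mk_of_subset hD3).trans (mk_union_le _ _)).trans_lt
      (add_lt_of_lt aleph0_le_continuum hD1 hD2)
    rw [hD] at h2
    exact lt_irrefl _ h2
  obtain ⟨i, hi⟩ := exists_assign w hw (theta_le_cof hnull)
  -- injections
  have h1 : #E ≤ #(ℕ → Bool) := by
    rw [hE]
    simp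
  obtain ⟨ζ⟩ := h1
  have h1 : #SO ≤ #A := by
    rw [mk_A]
    exact mk_SO
  obtain ⟨e⟩ := h1
  -- the points
  have hO : ∀ O : SO, ∃ (z : E) (x : Om), #(Iio (e O)) < w z ∧ x ∉ O.1 ∧ Rel x (i z) (ζ z) := by
    intro O
    obtain ⟨i₀, h2⟩ := exists_rel O.2.1 O.2.2
    obtain ⟨z, h3, h4⟩ := hi i₀ (e O)
    obtain ⟨x, h5, h6⟩ := h2 (ζ z)
    refine ⟨z, x, h4, h5, ?_⟩
    rw [h3]
    exact h6
  choose zO xO hO1 hO2 hO3 using hO
  have hX : mu (range xO) ≠ 0 := not_null hO2
  obtain ⟨ν, hν1, hν2⟩ := exists_trace hX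
  have hoo : ∀ x : range xO, ∃ O, xO O = x.1 := fun x => x.2
  choose oo hoo using hoo
  let z : range xO → E := fun x => zO (oo x)
  have hz : ∀ x : range xO, Rel x.1 (i (z x)) (ζ (z x)) := by
    intro x
    have h2 := hO3 (oo x)
    rw [hoo x] at h2
    exact h2
  have hφ : ∀ t : E, #{x : range xO | z x = t} ≤ #{d : E | d ∈ D ∧ d * d = t} := by
    intro t
    refine le_trans ?_ (mk_small (w t))
    refine mk_le_of_injective (f := fun x => (⟨e (oo x.1), ?_⟩ : {a : A | #(Iio a) < w t})) ?_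
    · have h2 := hO1 (oo x.1)
      have h3 : zO (oo x.1) = t := x.2
      rw [h3] at h2
      exact h2
    · intro x y hxy
      have h2 : oo x.1 = oo y.1 := e.injective (congrArg Subtype.val hxy)
      refine Subtype.ext (Subtype.ext ?_)
      rw [← hoo x.1, ← hoo y.1, h2]
  let φ : ∀ t : E, {x : range xO | z x = t} ↪ {d : E | d ∈ D ∧ d * d = t} :=
    fun t => Classical.choice (hφ t)
  let ι : range xO → E := fun x => (φ (z x) ⟨x, rfl⟩).1
  have hιD : ∀ x, ι x ∈ D := fun x => (φ (z x) ⟨x, rfl⟩).2.1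
  have hιz : ∀ x, ι x * ι x = z x := fun x => (φ (z x) ⟨x, rfl⟩).2.2
  have hιe : ∀ t, ∀ x, ∀ hx : z x = t, ι x = (φ t ⟨x, hx⟩).1 := by
    intro t x hx
    subst hx
    rfl
  have hιi : Function.Injective ι := by
    intro x y hxy
    have h2 : z y = z x := by rw [← hιz x, ← hιz y, hxy]
    have h3 := hιe (z x) y h2
    have h4 := hιe (z x) x rfl
    rw [← hxy, h4] at h3
    have h5 := (φ (z x)).injective (Subtype.ext h3)
    exact congrArg (fun t : {x' : range xO | z x' = z x} => t.1) h5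
  -- the conclusion
  refine Q163.AB.good_of_inj ν hν1 hν2 (MeasurableSpace.measurable_mapNatBool (range xO))
    (MeasurableSpace.injective_mapNatBool (range xO)) hE.le hC hall hιi ?_ ?_
  · rintro _ ⟨x, rfl⟩ _ ⟨y, rfl⟩ h
    exact hinj _ (hιD x) _ (hιD y) h
  letI mS : MeasurableSpace E := MeasurableSpace.map ι inferInstance
  have hS : ∀ S : Set E, (∀ x ∈ S, x ∉ range ι) → MeasurableSet S := by
    intro S hS
    show MeasurableSet (ι ⁻¹' S)
    have h2 : ι ⁻¹' S = ∅ := by
      ext x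
      exact ⟨fun hx => hS _ hx ⟨x, rfl⟩, fun hx => hx.elim⟩
    rw [h2]
    exact MeasurableSet.empty
  have hDm : MeasurableSet (range ι) := Q163.AB.meas_D hS
  have hZm : MeasurableSet (range fun x : E => x * x) := by
    refine hS _ ?_
    rintro _ ⟨x, rfl⟩ ⟨y, hy⟩
    refine hsub (hιD y) ?_
    rw [hy]
    exact ⟨x, rfl⟩
  let u : E → Om := Function.extend ι Subtype.val default
  have hu' : ∀ x, u (ι x) = x.1 := fun x => hιi.extend_apply _ _ x
  have hu : Measurable u := by
    have h2 : Measurable (u ∘ ι) := by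
      have h3 : u ∘ ι = Subtype.val := funext hu'
      rw [h3]
      exact measurable_subtype_coe
    intro s hs
    exact h2 hs
  let r : E → I × (ℕ → Bool) := fun g => if g ∈ range ι then (i 1, ζ 1) else (i g, ζ g)
  have hr : Measurable r := by
    intro s _
    have h3 : r ⁻¹' s = (r ⁻¹' s ∩ (range ι)ᶜ) ∪ (range ι ∩ {_x | (i 1, ζ 1) ∈ s}) := by
      ext x
      by_cases hx : x ∈ range ι
      · have h4 : r x = (i 1, ζ 1) := if_pos hx
        simp only [mem_preimage, mem_union, mem_inter_iff, mem_compl_iff, hx, h4, not_true_eq_false,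
          and_false, false_or, true_and]
        rfl
      · simp only [mem_preimage, mem_union, mem_inter_iff, mem_compl_iff, hx, not_false_eq_true,
          and_true, false_and, or_false]
    rw [h3]
    exact (hS _ fun x hx => hx.2).union (hDm.inter (MeasurableSet.const _))
  have hmain : {q : E × E | q.1 ∈ range ι ∧ q.2 = q.1 * q.1} =
      (Prod.fst ⁻¹' range ι ∩ Prod.snd ⁻¹' (range fun x : E => x * x)) ∩
        (fun q : E × E => (u q.1, r q.2)) ⁻¹' {p | Rel p.1 p.2.1 p.2.2} := by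
    ext ⟨g, t⟩
    constructor
    · rintro ⟨⟨x, hx⟩, h3⟩
      have hx' : ι x = g := hx
      have h3' : t = g * g := h3
      subst hx'
      have h4 : t = z x := h3'.trans (hιz x)
      have h5 : t ∉ range ι := by
        rintro ⟨y, hy⟩
        refine hsub (hιD y) ?_
        rw [hy, h3']
        exact ⟨_, rfl⟩
      refine ⟨⟨⟨x, rfl⟩, ⟨ι x, h3'.symm⟩⟩, ?_⟩
      show Rel (u (ι x)) (r t).1 (r t).2
      have h6 : r t = (i t, ζ t) := if_neg h5
      rw [h6, hu', h4]
      exact hz x
    · rintro ⟨⟨⟨x, hx⟩, ⟨y, hy⟩⟩, h3⟩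
      have hx' : ι x = g := hx
      subst hx'
      have hy' : y * y = t := hy
      have h3' : Rel (u (ι x)) (r t).1 (r t).2 := h3
      have h5 : t ∉ range ι := by
        rintro ⟨y', hy''⟩
        refine hsub (hιD y') ?_
        rw [hy'', ← hy']
        exact ⟨_, rfl⟩
      have h6 : r t = (i t, ζ t) := if_neg h5
      rw [h6, hu'] at h3'
      have h7 := (h3'.unique (hz x)).2
      have h8 : t = z x := ζ.injective h7
      refine ⟨⟨x, rfl⟩, ?_⟩
      show t = ι x * ι x
      rw [hιz, h8]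
  rw [hmain]
  exact ((measurable_fst hDm).inter (measurable_snd hZm)).inter
    (((hu.comp measurable_fst).prodMk (hr.comp measurable_snd)) meas_Rel)

end Q163.AC
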