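import Mathlib
import Pool.Agent.Q163.AC.Basic
import Pool.Agent.H818R2.Ram.Erdos

/-!
# A three state automaton whose colouring has no large homogeneous sets
-/

set_option autoImplicit false

namespace Pool.Agent.Q163.AC

open Finset

section low

variable {A : Type} [DecidableEq A] (G : SimpleGraph A) [DecidableRel G.Adj]

/-- the automaton of the lexicographic power of a graph -/
def ld (a b : A) : Option Bool → Option Bool
  | none => if a = b then none else some (decide (G.Adj a b))
  | some k => some k

theorem act_some (l l' : List A) (k : Bool) : act (ld G) l l' (some k) = some k := by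
  induction l generalizing l' with
  | nil => rfl
  | cons a l ih =>
    cases l' with
    | nil => rfl
    | cons b l' => exact ih l'

theorem act_same (a : A) (l l' : List A) : act (ld G) (a :: l) (a :: l') none =
    act (ld G) l l' none := by
  rw [act_cons, ld, if_pos rfl]

theorem act_diff {a b : A} (h : a ≠ b) (l l' : List A) : act (ld G) (a :: l) (b :: l') none =
    some (decide (G.Adj a b)) := by
  rw [act_cons, ld, if_neg h, act_some]

/-- the output -/
def lo : Option Bool → Bool
  | none => false
  | some k => k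

theorem sym (l : List A) : ∀ l' : List A, l.length = l'.length →
    act (ld G) l l' none = act (ld G) l' l none := by
  induction l with
  | nil =>
    intro l' h
    rw [List.length_eq_zero_iff.1 h.symm]
  | cons a l ih =>
    intro l' h
    cases l' with
    | nil => simp at h
    | cons b l' =>
      by_cases hab : a = b
      · subst hab
        rw [act_same, act_same, ih l' (by simpa using h)]
      · rw [act_diff G hab, act_diff G (Ne.symm hab)]
        simp only [G.adj_comm]

/-- homogeneous sets of the lexicographic power -/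
theorem low_bound {M : ℕ} (h1 : ∀ s : Finset A, G.IsClique (s : Set A) → s.card ≤ M)
    (h2 : ∀ s : Finset A, Gᶜ.IsClique (s : Set A) → s.card ≤ M) (n : ℕ) :
    ∀ (S : Finset (List A)) (k : Bool), (∀ l ∈ S, l.length = n) →
      (∀ x ∈ S, ∀ y ∈ S, x ≠ y → lo (act (ld G) x y none) = k) → S.card ≤ M ^ n := by
  classical
  induction n with
  | zero =>
    intro S k hS _
    rw [pow_zero]
    refine Finset.card_le_one.2 fun a ha b hb => ?_
    rw [List.length_eq_zero_iff.1 (hS a ha), List.length_eq_zero_iff.1 (hS b hb)]
  | succ n ih =>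
    intro S k hS hk
    let F : Finset A := (S.biUnion fun l => l.toFinset).filter fun a => ∃ l, a :: l ∈ S
    have hF : ∀ l ∈ S, ∃ a ∈ F, ∃ m, l = a :: m := by
      intro l hl
      have hlen := hS l hl
      cases l with
      | nil => simp at hlen
      | cons a m =>
        refine ⟨a, ?_, m, rfl⟩
        simp only [F, mem_filter, mem_biUnion, List.mem_toFinset]
        exact ⟨⟨a :: m, hl, List.mem_cons_self⟩, m, hl⟩
    have hFc : F.card ≤ M := by
      cases k with
      | true =>
        apply h1
        intro a ha b hb hab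
        rw [mem_coe] at ha hb
        simp only [F, mem_filter] at ha hb
        obtain ⟨-, l, hl⟩ := ha
        obtain ⟨-, m, hm⟩ := hb
        have := hk _ hl _ hm (fun h => hab (List.cons.inj h).1)
        rw [act_diff G hab] at this
        simpa [lo] using this
      | false =>
        apply h2
        intro a ha b hb hab
        rw [mem_coe] at ha hb
        simp only [F, mem_filter] at ha hb
        obtain ⟨-, l, hl⟩ := ha
        obtain ⟨-, m, hm⟩ := hb
        have := hk _ hl _ hm (fun h => hab (List.cons.inj h).1)
        rw [act_diff G hab] at this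
        rw [SimpleGraph.compl_adj]
        exact ⟨hab, by simpa [lo] using this⟩
    have hsub : S ⊆ F.biUnion fun a => ((S.filter fun l => ∃ m, l = a :: m)) := by
      intro l hl
      obtain ⟨a, ha, m, hm⟩ := hF l hl
      rw [mem_biUnion]
      exact ⟨a, ha, mem_filter.2 ⟨hl, m, hm⟩⟩
    have hfib : ∀ a ∈ F, (S.filter fun l => ∃ m, l = a :: m).card ≤ M ^ n := by
      intro a _
      have hinj : Set.InjOn List.tail ((S.filter fun l => ∃ m, l = a :: m : Finset (List A)) : Set (List A)) := by
        intro x hx y hy hxy
        rw [mem_coe, mem_filter] at hx hy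
        obtain ⟨-, m, rfl⟩ := hx
        obtain ⟨-, m', rfl⟩ := hy
        simp only [List.tail_cons] at hxy
        rw [hxy]
      rw [← card_image_of_injOn hinj]
      refine ih _ k ?_ ?_
      · intro l hl
        rw [mem_image] at hl
        obtain ⟨x, hx, rfl⟩ := hl
        rw [mem_filter] at hx
        rw [List.length_tail, hS x hx.1]
        rfl
      · intro x hx y hy hxy
        rw [mem_image] at hx hy
        obtain ⟨x, hx, rfl⟩ := hx
        obtain ⟨y, hy, rfl⟩ := hy
        rw [mem_filter] at hx hy
        obtain ⟨hx, m, rfl⟩ := hx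
        obtain ⟨hy, m', rfl⟩ := hy
        simp only [List.tail_cons] at hxy ⊢
        rw [← act_same G a]
        exact hk _ hx _ hy (fun h => hxy (List.cons.inj h).2)
    calc S.card ≤ _ := card_le_card hsub
      _ ≤ F.card * M ^ n := card_biUnion_le_card_mul _ _ _ hfib
      _ ≤ M * M ^ n := Nat.mul_le_mul_right _ hFc
      _ = M ^ (n + 1) := by rw [pow_succ]; ring

end low

open Pool.Agent.H818R2.Ram (Arrows R erdos_lower) in
/-- a graph without large homogeneous sets -/
theorem exists_graph (t : ℕ) (ht : 1 ≤ t) : ∃ G : SimpleGraph (Fin (2 ^ t)),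
    (∀ s : Finset (Fin (2 ^ t)), G.IsClique (s : Set (Fin (2 ^ t))) → s.card ≤ 2 * t) ∧
    (∀ s : Finset (Fin (2 ^ t)), Gᶜ.IsClique (s : Set (Fin (2 ^ t))) → s.card ≤ 2 * t) := by
  have h1 : 2 ^ t < R (2 * t + 1) (2 * t + 1) := by
    have h2 := erdos_lower (k := 2 * t + 1) (by omega)
    by_contra hle
    rw [not_lt] at hle
    have h3 := Nat.pow_le_pow_left hle 2
    have h4 : (2 ^ t) ^ 2 < 2 ^ (2 * t + 1) := by
      rw [← pow_mul, mul_comm t 2]
      exact Nat.pow_lt_pow_right (by norm_num) (by omega)
    omega
  have h2 : ¬ Arrows (2 ^ t) (2 * t + 1) (2 * t + 1) := fun h =>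
    absurd (Nat.sInf_le h) (not_le.2 h1)
  unfold Arrows at h2
  push Not at h2
  obtain ⟨G, h3, h4⟩ := h2
  have key : ∀ H : SimpleGraph (Fin (2 ^ t)), (∀ s : Finset (Fin (2 ^ t)), ¬ H.IsNClique (2 * t + 1) s) →
      ∀ s : Finset (Fin (2 ^ t)), H.IsClique (s : Set (Fin (2 ^ t))) → s.card ≤ 2 * t := by
    intro H hH s hs
    by_contra hlt
    obtain ⟨s', hs', hc⟩ := Finset.exists_subset_card_eq (show 2 * t + 1 ≤ s.card by omega)
    exact hH s' ⟨hs.subset (by exact_mod_cast hs'), hc⟩
  exact ⟨G, key G h3, key Gᶜ h4⟩

/-- the lower bound -/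
theorem lower (t n : ℕ) (ht : 1 ≤ t) : ∃ (δ : Fin (2 ^ t) → Fin (2 ^ t) → Fin 3 → Fin 3) (q₀ : Fin 3)
    (out : Fin 3 → Bool),
    (∀ x y : Fin n → Fin (2 ^ t), out (act δ (List.ofFn x) (List.ofFn y) q₀) =
      out (act δ (List.ofFn y) (List.ofFn x) q₀)) ∧
    ∀ (S : Finset (Fin n → Fin (2 ^ t))) (k : Bool), (∀ x ∈ S, ∀ y ∈ S, x ≠ y →
      out (act δ (List.ofFn x) (List.ofFn y) q₀) = k) → S.card ≤ (2 * t) ^ n := by
  classical
  obtain ⟨G, h1, h2⟩ := exists_graph t ht
  let e : Option Bool ≃ Fin 3 := Fintype.equivFinOfCardEq (by simp)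
  have key : ∀ (l l' : List (Fin (2 ^ t))) (q : Option Bool),
      act (fun a b q => e (ld G a b (e.symm q))) l l' (e q) = e (act (ld G) l l' q) := by
    intro l
    induction l with
    | nil => intro l' q; rfl
    | cons a l ih =>
      intro l' q
      cases l' with
      | nil => rfl
      | cons b l' =>
        rw [act_cons, act_cons, e.symm_apply_apply, ih]
  refine ⟨fun a b q => e (ld G a b (e.symm q)), e none, fun q => lo (e.symm q), ?_, ?_⟩
  · intro x y
    rw [key, key]
    simp only [e.symm_apply_apply]
    rw [sym G _ _ (by simp)]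
  · intro S k hS
    have hinj : Function.Injective (fun x : Fin n → Fin (2 ^ t) => List.ofFn x) :=
      List.ofFn_injective
    rw [← card_image_of_injective S hinj]
    refine low_bound G h1 h2 n _ k ?_ ?_
    · intro l hl
      rw [mem_image] at hl
      obtain ⟨x, _, rfl⟩ := hl
      exact List.length_ofFn
    · intro x hx y hy hxy
      rw [mem_image] at hx hy
      obtain ⟨x, hx, rfl⟩ := hx
      obtain ⟨y, hy, rfl⟩ := hy
      have := hS x hx y hy (fun h => hxy (by rw [h]))
      rw [key] at this
      simpa only [e.symm_apply_apply] using this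

end Pool.Agent.Q163.AC
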