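import Pool.Agent.Q163.AC.K

/-!
# Abstractly Borelian groups: all cases
-/

set_option autoImplicit false

namespace Q163.AC

open MeasureTheory Set Cardinal Q163.AB

universe u v

/-- The property is invariant under isomorphisms. -/
theorem good_of_equiv {E : Type u} {E' : Type v} [Group E] [Group E'] (e : E ≃* E')
    (h : Good E') : Good E := by
  obtain ⟨A, ⟨m, hm1, hm2⟩, hZ⟩ := h
  let B : ℕ → Set E := fun n => e ⁻¹' A n
  have hB : MeasurableSpace.generateFrom (range B) =
      (MeasurableSpace.generateFrom (range A)).comap e := by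
    rw [MeasurableSpace.comap_generateFrom, ← range_comp]
    rfl
  have hpre : ∀ S : Set E', MeasurableSet[MeasurableSpace.generateFrom (range A)] S →
      MeasurableSet[MeasurableSpace.generateFrom (range B)] (e ⁻¹' S) := by
    intro S hS
    rw [hB]
    exact ⟨S, hS, rfl⟩
  have hpre' : ∀ S : Set E, MeasurableSet[MeasurableSpace.generateFrom (range B)] S →
      MeasurableSet[MeasurableSpace.generateFrom (range A)] (e.symm ⁻¹' S) := by
    intro S hS
    rw [hB] at hS
    obtain ⟨T, hT, rfl⟩ := hS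
    have h1 : e.symm ⁻¹' (e ⁻¹' T) = T := by
      ext x
      simp
    rw [h1]
    exact hT
  have hsm : @Measurable E' E (MeasurableSpace.generateFrom (range A))
      (MeasurableSpace.generateFrom (range B)) e.symm := fun S hS => hpre' S hS
  refine ⟨B, ⟨@Measure.map E' E (MeasurableSpace.generateFrom (range A))
    (MeasurableSpace.generateFrom (range B)) e.symm m, ?_, fun x hx => ?_⟩, ?_⟩
  · rw [@Measure.map_apply E' E (MeasurableSpace.generateFrom (range A))
      (MeasurableSpace.generateFrom (range B)) m _ hsm _ MeasurableSet.univ, preimage_univ, hm1]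
  · rw [@Measure.map_apply E' E (MeasurableSpace.generateFrom (range A))
      (MeasurableSpace.generateFrom (range B)) m _ hsm _ hx]
    have h1 : e.symm ⁻¹' {x} = {e x} := by
      ext y
      constructor
      · intro hy
        have hy' : e.symm y = x := hy
        show y = e x
        rw [← hy', MulEquiv.apply_symm_apply]
      · intro hy
        have hy' : y = e x := hy
        show e.symm y = x
        rw [hy', MulEquiv.symm_apply_apply]
    have h2 := hpre' _ hx
    rw [h1] at h2 ⊢
    exact hm2 _ h2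
  · have hF : @Measurable (E × E × E) (E' × E' × E') (box B) (box A)
        (fun p => (e p.1, e p.2.1, e p.2.2)) := by
      refine @measurable_generateFrom _ _ (box B) _ _ ?_
      rintro W ⟨B₁, B₂, B₃, h1, h2, h3, rfl⟩
      exact MeasurableSpace.measurableSet_generateFrom
        ⟨e ⁻¹' B₁, e ⁻¹' B₂, e ⁻¹' B₃, hpre _ h1, hpre _ h2, hpre _ h3, rfl⟩
    have h1 := hF hZ
    have h2 : (fun p : E × E × E => (e p.1, e p.2.1, e p.2.2)) ⁻¹'
        {p : E' × E' × E' | p.1 * p.2.1 = p.2.2} = {p : E × E × E | p.1 * p.2.1 = p.2.2} := by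
      ext p
      show e p.1 * e p.2.1 = e p.2.2 ↔ p.1 * p.2.1 = p.2.2
      rw [← map_mul, e.injective.eq_iff]
    rw [h2] at h1
    exact h1

theorem good_real {E : Type} [Group E] (hE : #E = 𝔠) (D₀ : Set E) (hD : #D₀ = 𝔠)
    (hs : (∀ x ∈ D₀, ∀ y ∈ D₀, x * x = y * y) ∨ ∀ x ∈ D₀, ∀ y ∈ D₀, x * x = y * y → x = y) :
    Good E := by
  refine Q163.AB.good (X := ℝ) (volume.restrict (Icc 0 1)) ?_ ?_
    (MeasurableSpace.measurable_mapNatBool ℝ) (MeasurableSpace.injective_mapNatBool ℝ) hE.le D₀
    ?_ ?_ hs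
  · rw [Measure.restrict_apply MeasurableSet.univ, univ_inter, Real.volume_Icc]
    simp
  · intro x
    exact le_antisymm ((Measure.restrict_apply_le _ _).trans (by simp)) (zero_le)
  · rw [Cardinal.mk_real, hD]
  · rw [hD]
    exact aleph0_lt_continuum

theorem exists_section {E : Type} [Group E] : ∃ D₀ : Set E,
    #D₀ = #(range fun x : E => x * x) ∧ ∀ x ∈ D₀, ∀ y ∈ D₀, x * x = y * y → x = y := by
  have h : ∀ z : (range fun x : E => x * x), ∃ x : E, x * x = z.1 := fun z => z.2
  choose r hr using h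
  refine ⟨range r, mk_range_eq r fun a b hab => Subtype.ext ?_, ?_⟩
  · rw [← hr a, ← hr b, hab]
  · rintro _ ⟨a, rfl⟩ _ ⟨b, rfl⟩ hab
    rw [hr, hr] at hab
    rw [Subtype.ext hab]

instance : NullSingletonClass mu := ⟨mu_singleton⟩

/-- Few squares, and a small set which is not null. -/
theorem good_nonnull {E : Type} [Group E] (hE : #E = 𝔠) (hZ : #(range fun x : E => x * x) < 𝔠)
    {V : Set Om} (hV : #V < 𝔠) (hV0 : mu V ≠ 0) : Good E := by
  have h0 : ℵ₀ < #V := by
    by_contra hcon
    rw [not_lt, le_aleph0_iff_set_countable] at hcon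
    exact hV0 (hcon.measure_zero mu)
  have h1 : ∃ z : E, #V ≤ #{x : E | x * x = z} := by
    by_contra hcon
    push Not at hcon
    have h2 : #E ≤ #(range fun x : E => x * x) * #V := by
      refine mk_le_mk_mul_of_mk_preimage_le
        (fun x : E => (⟨x * x, x, rfl⟩ : (range fun x : E => x * x))) fun b => ?_
      refine le_trans (mk_le_mk_of_subset fun x hx => ?_) (hcon b.1).le
      exact congrArg Subtype.val hx
    rw [hE] at h2
    exact absurd h2 (not_le.2 (mul_lt_of_lt aleph0_le_continuum hZ hV))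
  obtain ⟨z, ⟨f⟩⟩ := h1
  obtain ⟨ν, hν1, hν2⟩ := exists_trace hV0
  have hcard : #(range fun v : V => (f v).1) = #V :=
    mk_range_eq _ fun a b hab => f.injective (Subtype.ext hab)
  refine Q163.AB.good ν hν1 hν2 (MeasurableSpace.measurable_mapNatBool V)
    (MeasurableSpace.injective_mapNatBool V) hE.le (range fun v : V => (f v).1)
    (by rw [hcard]) (by rw [hcard]; exact h0) (Or.inl ?_)
  rintro _ ⟨v, rfl⟩ _ ⟨v', rfl⟩
  exact Eq.trans (f v).2 (Eq.symm (f v').2)

/-- Groups of cardinality of the continuum, in the lowest universe. -/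
theorem good_zero {E : Type} [Group E] (hE : #E = 𝔠) : Good E := by
  by_cases hZ : #(range fun x : E => x * x) = 𝔠
  · obtain ⟨D₀, h1, h2⟩ := exists_section (E := E)
    exact good_real hE D₀ (h1.trans hZ) (Or.inr h2)
  have hZ' : #(range fun x : E => x * x) < 𝔠 := lt_of_le_of_ne ((mk_set_le _).trans hE.le) hZ
  by_cases hf : ∃ z : E, #{x : E | x * x = z} = 𝔠
  · obtain ⟨z, hz⟩ := hf
    exact good_real hE _ hz (Or.inl fun x hx y hy => Eq.trans hx (Eq.symm hy))
  push Not at hf
  have hf' : ∀ z : E, #{x : E | x * x = z} < 𝔠 := fun z =>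
    lt_of_le_of_ne ((mk_set_le _).trans hE.le) (hf z)
  by_cases hn : ∀ V : Set Om, #V < 𝔠 → mu V = 0
  · exact good_null hE hZ' hf' hn
  · push Not at hn
    obtain ⟨V, h1, h2⟩ := hn
    exact good_nonnull hE hZ' h1 h2

/-- Every group of cardinality of the continuum is good. -/
theorem good_all {E : Type u} [Group E] (hE : #E = 𝔠) : Good E := by
  have h1 : Cardinal.lift.{u} #A = Cardinal.lift.{0} #E := by
    rw [hE, mk_A]
    simp
  obtain ⟨e⟩ := Cardinal.lift_mk_eq'.1 h1
  let g : Group A := e.group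
  exact good_of_equiv (Equiv.mulEquiv e).symm (good_zero (E := A) mk_A)

end Q163.AC
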