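import Mathlib
import Pool.Agent.Q163.AC.Basic
import Pool.Agent.H184R3.ES

/-!
# Large homogeneous sets for colourings of pairs of words computed by finite automata
-/

set_option autoImplicit false

namespace Pool.Agent.Q163.AC

open Finset

section words

variable {A Q : Type} [Fintype Q] [DecidableEq Q]

/-- two different words with the same diagonal action -/
theorem exists_uv {a₀ a₁ : A} (ha : a₀ ≠ a₁) (δ : A → A → Q → Q) [Nonempty Q] {s : ℕ}
    (hs : Fintype.card Q ≤ s) : ∃ w : Bool → List A, (∀ i, (w i).length = s ^ 2) ∧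
      w false ≠ w true ∧ ∀ i, act δ (w i) (w i) = act δ (w false) (w false) := by
  classical
  have hs1 : 1 ≤ s := le_trans Fintype.card_pos hs
  let word : (Fin (s ^ 2) → Bool) → List A := fun x => List.ofFn fun i => if x i then a₁ else a₀
  have hinj : Function.Injective word := by
    intro x y hxy
    have h1 := List.ofFn_injective hxy
    funext i
    have h2 := congrFun h1 i
    by_cases hx : x i <;> by_cases hy : y i <;> simp_all
  have hcard : Fintype.card (Q → Q) < Fintype.card (Fin (s ^ 2) → Bool) := by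
    rw [Fintype.card_fun, Fintype.card_fun, Fintype.card_bool, Fintype.card_fin]
    calc Fintype.card Q ^ Fintype.card Q ≤ s ^ s :=
          (Nat.pow_le_pow_left hs _).trans (Nat.pow_le_pow_right hs1 hs)
      _ < (2 ^ s) ^ s := Nat.pow_lt_pow_left Nat.lt_two_pow_self (by omega)
      _ = 2 ^ s ^ 2 := by rw [← pow_mul, sq]
  obtain ⟨x, y, hxy, h⟩ := Fintype.exists_ne_map_eq_of_card_lt
    (fun x => act δ (word x) (word x)) hcard
  refine ⟨fun i => if i then word y else word x, ?_, ?_, ?_⟩
  · intro i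
    cases i <;> simp [word]
  · simp only [Bool.false_eq_true, if_false, if_true]
    exact fun h' => hxy (hinj h')
  · intro i
    cases i
    · rfl
    · simp only [Bool.false_eq_true, if_false, if_true]
      exact h.symm

omit [DecidableEq Q] in
/-- shortening of patterns -/
theorem shorten (δ : Bool → Bool → Q → Q) {s : ℕ} (hs1 : 1 ≤ s) (hs : Fintype.card Q ≤ s)
    (l l' : List Bool) (h : l.length = l'.length) :
    ∃ m m' : List Bool, m.length = m'.length ∧ m.length ≤ s ^ s ∧ act δ m m' = act δ l l' := by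
  classical
  have hP : ∃ n, ∃ m m' : List Bool, m.length = m'.length ∧ m.length = n ∧
      act δ m m' = act δ l l' := ⟨l.length, l, l', h, rfl, rfl⟩
  obtain ⟨m, m', h1, h2, h3⟩ := Nat.find_spec hP
  refine ⟨m, m', h1, ?_, h3⟩
  by_contra hlt
  rw [not_le] at hlt
  have hcard : Fintype.card (Q → Q) < Fintype.card (Fin (m.length + 1)) := by
    rw [Fintype.card_fun, Fintype.card_fin]
    have : Fintype.card Q ^ Fintype.card Q ≤ s ^ s :=
      (Nat.pow_le_pow_left hs _).trans (Nat.pow_le_pow_right hs1 hs)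
    omega
  obtain ⟨i, j, hij, h4⟩ := Fintype.exists_ne_map_eq_of_card_lt
    (fun i : Fin (m.length + 1) => act δ (m.take i) (m'.take i)) hcard
  have key : ∀ i j : ℕ, i < j → j ≤ m.length → act δ (m.take i) (m'.take i) =
      act δ (m.take j) (m'.take j) → False := by
    intro i j hij hj h4
    have hlt2 : (m.take i ++ m.drop j).length < Nat.find hP := by
      rw [List.length_append, List.length_take, List.length_drop, ← h2]
      omega
    refine Nat.find_min hP hlt2 ⟨m.take i ++ m.drop j, m'.take i ++ m'.drop j, ?_, rfl, ?_⟩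
    · simp only [List.length_append, List.length_take, List.length_drop, h1]
    · rw [← h3]
      funext q
      rw [act_append δ (by simp only [List.length_take, h1]), h4,
        ← act_append δ (by simp only [List.length_take, h1]), List.take_append_drop,
        List.take_append_drop]
  have hij' : (i : ℕ) ≠ j := fun h' => hij (Fin.ext h')
  rcases lt_or_gt_of_ne hij' with hlt' | hlt'
  · exact key i j hlt' (by have := j.2; omega) h4
  · exact key j i hlt' (by have := i.2; omega) h4.symm

/-- a short pattern of minimal rank -/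
theorem exists_min (δ : Bool → Bool → Q → Q) {s : ℕ} (hs1 : 1 ≤ s) (hs : Fintype.card Q ≤ s) :
    ∃ U V : List Bool, U.length = V.length ∧ U.length ≤ s ^ s ∧
      ∀ l l' : List Bool, l.length = l'.length → rk (act δ U V) ≤ rk (act δ l l') := by
  classical
  have hP : ∃ n, ∃ m m' : List Bool, m.length = m'.length ∧ rk (act δ m m') = n :=
    ⟨_, [], [], rfl, rfl⟩
  obtain ⟨m, m', h1, h2⟩ := Nat.find_spec hP
  obtain ⟨U, V, h3, h4, h5⟩ := shorten δ hs1 hs m m' h1
  refine ⟨U, V, h3, h4, fun l l' h => ?_⟩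
  rw [h5, h2]
  exact Nat.find_min' hP ⟨l, l', h, rfl⟩

/-- the data of the second level -/
structure Lev (δ : Bool → Bool → Q → Q) (e L : ℕ) (w : Bool → List Bool) (ρ : Q → Q) : Prop where
  len : ∀ i, (w i).length = L
  ne : w false ≠ w true
  diag : ∀ i, act δ (w i) (w i) = ρ
  idem : ∀ q, ρ (ρ q) = ρ q
  min : ∀ o : Bool, ∀ l l' : List Bool, l.length = l'.length →
    rk (act δ (w o) (w !o)) ≤ rk (act δ l l')

theorem exists_lev (δ : Bool → Bool → Q → Q) (hd : ∀ i, δ i i = δ false false) {s : ℕ}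
    (hs1 : 1 ≤ s) (hs : Fintype.card Q ≤ s) :
    ∃ w ρ, Lev δ s.factorial (s.factorial * (2 * s ^ s + 2)) w ρ := by
  obtain ⟨U, V, h1, h2, h3⟩ := exists_min δ hs1 hs
  have hf : 1 ≤ s.factorial := Nat.factorial_pos s
  obtain ⟨L, hL⟩ : ∃ L, L = s.factorial * (2 * s ^ s + 2) := ⟨_, rfl⟩
  have hL2 : 2 * U.length + 2 ≤ L := by
    rw [hL]
    calc 2 * U.length + 2 ≤ 1 * (2 * s ^ s + 2) := by omega
      _ ≤ _ := Nat.mul_le_mul_right _ hf
  obtain ⟨j, hj⟩ : ∃ j, j = L - (2 * U.length + 2) := ⟨_, rfl⟩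
  let w : Bool → List Bool := fun i =>
    if i then (true :: V) ++ ((false :: U) ++ List.replicate j false)
    else (false :: U) ++ ((true :: V) ++ List.replicate j false)
  have hR : ∀ (n : ℕ) (q : Q), (δ false false)^[s.factorial * (n + 1)] q =
      (δ false false)^[s.factorial] q := by
    intro n
    induction n with
    | zero => intro q; rw [zero_add, mul_one]
    | succ n ih =>
      intro q
      rw [mul_add s.factorial (n + 1) 1, mul_one, Function.iterate_add_apply, ih, iter_idem hs]
  have hlen : ∀ i, (w i).length = L := by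
    intro i
    cases i <;> simp [w] <;> omega
  have key : ∀ (a b c : List Bool) (a' b' c' : List Bool), a.length = a'.length →
      b.length = b'.length → c.length = c'.length →
      rk (act δ (a ++ (b ++ c)) (a' ++ (b' ++ c'))) ≤ rk (act δ b b') := by
    intro a b c a' b' c' e1 e2 e3
    have h4 : act δ (a ++ (b ++ c)) (a' ++ (b' ++ c')) =
        fun q => act δ c c' (act δ b b' (act δ a a' q)) := by
      funext q
      rw [act_append δ e1, act_append δ e2]
    rw [h4]
    exact (rk_comp_le_right (act δ c c') (fun q => act δ b b' (act δ a a' q))).trans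
      (rk_comp_le_left (act δ b b') (act δ a a'))
  refine ⟨w, (δ false false)^[s.factorial], ?_⟩
  rw [← hL]
  refine ⟨hlen, ?_, ?_, fun q => iter_idem hs _ q, ?_⟩
  · intro h
    simp [w] at h
  · intro i
    funext q
    rw [act_diag δ hd, hlen, hL, show 2 * s ^ s + 2 = (2 * s ^ s + 1) + 1 by omega, hR]
  · intro o l l' h
    refine le_trans ?_ (h3 l l' h)
    cases o
    · have := key [false] U ((true :: V) ++ List.replicate j false) [true] V
        ((false :: U) ++ List.replicate j false) rfl h1 (by simp [h1])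
      simpa [w] using this
    · have := key ((true :: V) ++ [false]) U (List.replicate j false) ((false :: U) ++ [true]) V
        (List.replicate j false) (by simp [h1]) h1 rfl
      simpa [w] using this

/-- a palindromic segment -/
def seg (w : List Bool) : List Bool := false :: (w ++ (w.reverse ++ [false]))

theorem seg_len (w : List Bool) : (seg w).length = 2 * w.length + 2 := by
  simp [seg]; omega

theorem Lev.seg_eq {δ : Bool → Bool → Q → Q} {e L : ℕ} {w : Bool → List Bool} {ρ : Q → Q}
    (hl : Lev δ e L w ρ) (o : Bool) (a c d : List Bool) (hcd : c.length = d.length) (q : Q) :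
    act (fun i j => act δ (w i) (w j)) (seg (a ++ o :: c)) (seg (a ++ (!o) :: d)) q =
      ρ (act δ (w o) (w !o) (act (fun i j => act δ (w i) (w j)) (c ++ c.reverse) (d ++ d.reverse)
        (act δ (w o) (w !o) (ρ q)))) := by
  have e1 : seg (a ++ o :: c) = (false :: a) ++ ([o] ++ ((c ++ c.reverse) ++ ([o] ++
      (a.reverse ++ [false])))) := by simp [seg]
  have e2 : seg (a ++ (!o) :: d) = (false :: a) ++ ([!o] ++ ((d ++ d.reverse) ++ ([!o] ++
      (a.reverse ++ [false])))) := by simp [seg]
  rw [e1, e2, act_append _ (l₁ := false :: a) (l₁' := false :: a) rfl,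
    act_append _ (l₁ := [o]) (l₁' := [!o]) rfl, act_append _ (by simp [hcd]),
    act_append _ (l₁ := [o]) (l₁' := [!o]) rfl, act_idem _ hl.diag hl.idem (by simp), act_idem _ hl.diag hl.idem (by simp)]
  rfl

theorem Lev.const {δ : Bool → Bool → Q → Q} {e L : ℕ} {w : Bool → List Bool} {ρ : Q → Q}
    (hl : Lev δ e L w ρ) (he : 0 < e) (hidem : ∀ (f : Q → Q) (q : Q), f^[e] (f^[e] q) = f^[e] q)
    (o : Bool) (a c d a' c' d' : List Bool) (hcd : c.length = d.length)
    (hcd' : c'.length = d'.length) (q : Q) :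
    (act (fun i j => act δ (w i) (w j)) (seg (a ++ o :: c)) (seg (a ++ (!o) :: d)))^[e] q =
    (act (fun i j => act δ (w i) (w j)) (seg (a' ++ o :: c')) (seg (a' ++ (!o) :: d')))^[e] q := by
  have hw : ∀ i j, (w i).length = (w j).length := fun i j => by rw [hl.len, hl.len]
  have hmin : ∀ l l' : List Bool, l.length = l'.length →
      rk (act δ (w o) (w !o)) ≤ rk (act (fun i j => act δ (w i) (w j)) l l') := by
    intro l l' h
    have : act (fun i j => act δ (w i) (w j)) l l' = act δ (l.flatMap w) (l'.flatMap w) := by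
      funext q
      rw [act_flatMap δ w hw h]
    rw [this]
    refine hl.min o _ _ ?_
    rw [List.length_flatMap, List.length_flatMap]
    have : ∀ i, (w i).length = L := hl.len
    simp [this, h]
  obtain ⟨z₁, hz₁⟩ : ∃ z, z = act (fun i j => act δ (w i) (w j)) (c ++ c.reverse) (d ++ d.reverse) :=
    ⟨_, rfl⟩
  obtain ⟨z₂, hz₂⟩ : ∃ z, z = act (fun i j => act δ (w i) (w j)) (c' ++ c'.reverse)
    (d' ++ d'.reverse) := ⟨_, rfl⟩
  have e1 : act (fun i j => act δ (w i) (w j)) (seg (a ++ o :: c)) (seg (a ++ (!o) :: d)) =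
      fun q => ρ (act δ (w o) (w !o) (z₁ (act δ (w o) (w !o) (ρ q)))) := by
    funext q
    rw [hl.seg_eq o a c d hcd, hz₁]
  have e2 : act (fun i j => act δ (w i) (w j)) (seg (a' ++ o :: c')) (seg (a' ++ (!o) :: d')) =
      fun q => ρ (act δ (w o) (w !o) (z₂ (act δ (w o) (w !o) (ρ q)))) := by
    funext q
    rw [hl.seg_eq o a' c' d' hcd', hz₂]
  have f0 : (fun q => ρ (act δ (w o) (w !o) q)) =
      act (fun i j => act δ (w i) (w j)) [o, false] [!o, false] := by
    funext q
    simp only [act_cons, act_nil]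
    rw [hl.diag]
  have f1 : (fun q => act δ (w o) (w !o) (ρ q)) =
      act (fun i j => act δ (w i) (w j)) [false, o] [false, !o] := by
    funext q
    simp only [act_cons, act_nil]
    rw [hl.diag]
  have hseg : ∀ a c d : List Bool, c.length = d.length →
      (seg (a ++ o :: c)).length = (seg (a ++ (!o) :: d)).length := by
    intro a c d h
    rw [seg_len, seg_len]
    simp [h]
  have hmm : ∀ h : Q → Q, ∀ l l' : List Bool, l.length = l'.length →
      act (fun i j => act δ (w i) (w j)) l l' = h → rk (act δ (w o) (w !o)) ≤ rk h ∧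
        rk (act δ (w o) (w !o)) ≤ rk (fun q => h (h q)) := by
    intro h l l' hll hh
    refine ⟨by rw [← hh]; exact hmin l l' hll, ?_⟩
    have : (fun q => h (h q)) = act (fun i j => act δ (w i) (w j)) (l ++ l) (l' ++ l') := by
      funext q
      rw [act_append _ hll, hh]
    rw [this]
    exact hmin _ _ (by simp [hll])
  rw [e1, e2]
  refine sandwich he hidem ?_ ?_ ?_ q
  · rw [f0]; exact hmin _ _ rfl
  · intro z hz
    rcases hz with rfl | hz
    · exact hmm _ _ _ (hseg a c d hcd) e1
    · rw [Set.mem_singleton_iff] at hz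
      subst hz
      exact hmm _ _ _ (hseg a' c' d' hcd') e2
  · rw [f1]; exact hmin _ _ rfl

end words

section assembly

/-- binary digits, the most significant first -/
def bits : ℕ → ℕ → List Bool
  | 0, _ => []
  | k + 1, i => if 2 ^ k ≤ i then true :: bits k (i - 2 ^ k) else false :: bits k i

theorem bits_len (k i : ℕ) : (bits k i).length = k := by
  induction k generalizing i with
  | zero => rfl
  | succ k ih =>
    rw [bits]
    split_ifs <;> simp [ih]

theorem bits_lt (k : ℕ) : ∀ i j : ℕ, i < j → j < 2 ^ k →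
    ∃ a c d : List Bool, c.length = d.length ∧ bits k i = a ++ false :: c ∧
      bits k j = a ++ true :: d := by
  induction k with
  | zero => intro i j h1 h2; simp at h2; omega
  | succ k ih =>
    intro i j hij hj
    rw [pow_succ] at hj
    by_cases h1 : 2 ^ k ≤ i
    · obtain ⟨a, c, d, h2, h3, h4⟩ := ih (i - 2 ^ k) (j - 2 ^ k) (by omega) (by omega)
      refine ⟨true :: a, c, d, h2, ?_, ?_⟩
      · rw [bits, if_pos h1, h3]; rfl
      · rw [bits, if_pos (by omega), h4]; rfl
    · by_cases h2 : 2 ^ k ≤ j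
      · refine ⟨[], bits k i, bits k (j - 2 ^ k), ?_, ?_, ?_⟩
        · rw [bits_len, bits_len]
        · rw [bits, if_neg h1]; rfl
        · rw [bits, if_pos h2]; rfl
      · obtain ⟨a, c, d, h3, h4, h5⟩ := ih i j hij (by omega)
        refine ⟨false :: a, c, d, h3, ?_, ?_⟩
        · rw [bits, if_neg h1, h4]; rfl
        · rw [bits, if_neg h2, h5]; rfl

theorem bits_inj (k : ℕ) {i j : ℕ} (hi : i < 2 ^ k) (hj : j < 2 ^ k) (h : bits k i = bits k j) :
    i = j := by
  rcases lt_trichotomy i j with h1 | h1 | h1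
  · obtain ⟨a, c, d, -, h3, h4⟩ := bits_lt k i j h1 hj
    rw [h3, h4] at h
    simp at h
  · exact h1
  · obtain ⟨a, c, d, -, h3, h4⟩ := bits_lt k j i h1 hi
    rw [h3, h4] at h
    simp at h

theorem flatMap_inj {B : Type} (w : Bool → List B) {L : ℕ} (hw : ∀ i, (w i).length = L)
    (hne : w false ≠ w true) : ∀ l l' : List Bool, l.length = l'.length →
      l.flatMap w = l'.flatMap w → l = l' := by
  intro l
  induction l with
  | nil =>
    intro l' h _
    exact (List.length_eq_zero_iff.1 h.symm).symm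
  | cons a l ih =>
    intro l' h1 h2
    cases l' with
    | nil => simp at h1
    | cons b l' =>
      rw [List.flatMap_cons, List.flatMap_cons] at h2
      obtain ⟨h3, h4⟩ := List.append_inj h2 (by rw [hw, hw])
      have hab : a = b := by
        cases a <;> cases b
        · rfl
        · exact absurd h3 hne
        · exact absurd h3.symm hne
        · rfl
      rw [hab, ih l' (by simpa using h1) h4]

variable {A : Type}

/-- the long word -/
def full (e : ℕ) (w₁ : Bool → List A) (w₂ : Bool → List Bool) (x : List Bool) : List A :=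
  (((List.replicate e (seg x)).flatten).flatMap w₂).flatMap w₁

theorem len_flatMap {B C : Type} (w : B → List C) {L : ℕ} (hw : ∀ i, (w i).length = L)
    (l : List B) : (l.flatMap w).length = l.length * L := by
  induction l with
  | nil => simp
  | cons a l ih => rw [List.flatMap_cons, List.length_append, ih, hw, List.length_cons]; ring

theorem len_rep (e : ℕ) (l : List Bool) : (List.replicate e l).flatten.length = e * l.length := by
  induction e with
  | zero => simp
  | succ e ih => rw [List.replicate_succ, List.flatten_cons, List.length_append, ih]; ring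

theorem full_len {e L M : ℕ} {w₁ : Bool → List A} {w₂ : Bool → List Bool}
    (h₁ : ∀ i, (w₁ i).length = M) (h₂ : ∀ i, (w₂ i).length = L) (x : List Bool) :
    (full e w₁ w₂ x).length = e * (2 * x.length + 2) * L * M := by
  rw [full, len_flatMap w₁ h₁, len_flatMap w₂ h₂, len_rep, seg_len]

theorem full_inj {e L M : ℕ} (he : 0 < e) {w₁ : Bool → List A} {w₂ : Bool → List Bool}
    (h₁ : ∀ i, (w₁ i).length = M) (h₂ : ∀ i, (w₂ i).length = L) (n₁ : w₁ false ≠ w₁ true)
    (n₂ : w₂ false ≠ w₂ true) {x y : List Bool} (hxy : x.length = y.length)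
    (h : full e w₁ w₂ x = full e w₁ w₂ y) : x = y := by
  have hseg : (seg x).length = (seg y).length := by rw [seg_len, seg_len, hxy]
  have h1 := flatMap_inj w₁ h₁ n₁ _ _ (by
    rw [len_flatMap w₂ h₂, len_flatMap w₂ h₂, len_rep, len_rep, hseg]) h
  have h2 := flatMap_inj w₂ h₂ n₂ _ _ (by rw [len_rep, len_rep, hseg]) h1
  obtain ⟨e', rfl⟩ : ∃ e', e = e' + 1 := ⟨e - 1, by omega⟩
  rw [List.replicate_succ, List.replicate_succ, List.flatten_cons, List.flatten_cons] at h2
  obtain ⟨h3, -⟩ := List.append_inj h2 hseg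
  rw [seg, seg] at h3
  have h4 := (List.cons_injective h3)
  exact (List.append_inj h4 hxy).1

/-- the homogeneous sets -/
theorem upper {Q : Type} [Fintype Q] [DecidableEq A] [Fintype A] {a₀ a₁ : A} (ha : a₀ ≠ a₁)
    {β : Type} [LinearOrder β] {s m n : ℕ} (hs : Fintype.card Q ≤ s)
    (hn : 8 * s.factorial ^ 2 * (s ^ s + 1) * s ^ 2 * (m + 1) ≤ n)
    (ν : (Fin n → A) → β) (hν : Function.Injective ν) (δ : A → A → Q → Q) (q₀ : Q) :
    ∃ S : Finset (Fin n → A), S.card = 2 ^ m ∧ ∃ q : Q, ∀ x ∈ S, ∀ y ∈ S, ν x < ν y →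
      act δ (List.ofFn x) (List.ofFn y) q₀ = q := by
  classical
  have : Nonempty Q := ⟨q₀⟩
  have hs1 : 1 ≤ s := le_trans Fintype.card_pos hs
  obtain ⟨w₁, hw₁, hne₁, hd₁⟩ := exists_uv ha δ hs
  obtain ⟨w₂, ρ, hl⟩ := exists_lev (fun i j => act δ (w₁ i) (w₁ j)) hd₁ hs1 hs
  obtain ⟨e, he⟩ : ∃ e, e = s.factorial := ⟨_, rfl⟩
  rw [← he] at hl hn
  have he0 : 0 < e := by rw [he]; exact Nat.factorial_pos s
  have hidem : ∀ (f : Q → Q) (q : Q), f^[e] (f^[e] q) = f^[e] q := by
    intro f q; rw [he]; exact iter_idem hs f q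
  have hflen : ∀ i, (full e w₁ w₂ (bits (2 * m) i)).length =
      e * (2 * (2 * m) + 2) * (e * (2 * s ^ s + 2)) * s ^ 2 := by
    intro i
    rw [full_len hw₁ hl.len, bits_len]
  have htot : e * (2 * (2 * m) + 2) * (e * (2 * s ^ s + 2)) * s ^ 2 ≤ n := by
    refine le_trans ?_ hn
    have e1 : e * (2 * (2 * m) + 2) * (e * (2 * s ^ s + 2)) * s ^ 2 =
      4 * e ^ 2 * (s ^ s + 1) * s ^ 2 * (2 * m + 1) := by ring
    have e2 : 8 * e ^ 2 * (s ^ s + 1) * s ^ 2 * (m + 1) =
      4 * e ^ 2 * (s ^ s + 1) * s ^ 2 * (2 * m + 2) := by ring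
    rw [e1, e2]
    exact Nat.mul_le_mul_left _ (by omega)
  obtain ⟨pad, hpad⟩ : ∃ pad, pad = n - e * (2 * (2 * m) + 2) * (e * (2 * s ^ s + 2)) * s ^ 2 :=
    ⟨_, rfl⟩
  have hlist : ∀ i, (List.replicate pad a₀ ++ full e w₁ w₂ (bits (2 * m) i)).length = n := by
    intro i
    rw [List.length_append, List.length_replicate, hflen, hpad]
    omega
  let word : ℕ → (Fin n → A) := fun i k =>
    (List.replicate pad a₀ ++ full e w₁ w₂ (bits (2 * m) i)).get (k.cast (hlist i).symm)
  have hword : ∀ i, List.ofFn (word i) = List.replicate pad a₀ ++ full e w₁ w₂ (bits (2 * m) i) := by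
    intro i
    apply List.ext_getElem
    · rw [List.length_ofFn, hlist]
    · intro k h1 h2
      rw [List.getElem_ofFn]
      rfl
  have hwinj : ∀ i j, i < 2 ^ (2 * m) → j < 2 ^ (2 * m) → word i = word j → i = j := by
    intro i j hi hj h
    have h1 : List.ofFn (word i) = List.ofFn (word j) := by rw [h]
    rw [hword, hword] at h1
    have h2 := List.append_cancel_left h1
    exact bits_inj (2 * m) hi hj (full_inj he0 hw₁ hl.len hne₁ hl.ne (by rw [bits_len, bits_len]) h2)
  -- the final state
  obtain ⟨q₁, hq₁⟩ : ∃ q₁, q₁ = act δ (List.replicate pad a₀) (List.replicate pad a₀) q₀ :=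
    ⟨_, rfl⟩
  have hact : ∀ i j, act δ (List.ofFn (word i)) (List.ofFn (word j)) q₀ =
      (act (fun i j => act (fun i j => act δ (w₁ i) (w₁ j)) (w₂ i) (w₂ j))
        (seg (bits (2 * m) i)) (seg (bits (2 * m) j)))^[e] q₁ := by
    intro i j
    have hsl : (seg (bits (2 * m) i)).length = (seg (bits (2 * m) j)).length := by
      rw [seg_len, seg_len, bits_len, bits_len]
    rw [hword, hword, act_append δ rfl, ← hq₁, full, full,
      act_flatMap δ w₁ (fun i j => by rw [hw₁, hw₁]) (by
        rw [len_flatMap w₂ hl.len, len_flatMap w₂ hl.len, len_rep, len_rep, hsl]),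
      act_flatMap _ w₂ (fun i j => by rw [hl.len, hl.len]) (by rw [len_rep, len_rep, hsl]),
      act_rep _ hsl]
  have hlt : ∀ i j i' j', i < j → j < 2 ^ (2 * m) → i' < j' → j' < 2 ^ (2 * m) →
      act δ (List.ofFn (word i)) (List.ofFn (word j)) q₀ =
        act δ (List.ofFn (word i')) (List.ofFn (word j')) q₀ := by
    intro i j i' j' h1 h2 h3 h4
    obtain ⟨a, c, d, hcd, e1, e2⟩ := bits_lt (2 * m) i j h1 h2
    obtain ⟨a', c', d', hcd', e1', e2'⟩ := bits_lt (2 * m) i' j' h3 h4
    rw [hact, hact, e1, e2, e1', e2']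
    exact hl.const he0 hidem false a c d a' c' d' hcd hcd' q₁
  have hgt : ∀ i j i' j', i < j → j < 2 ^ (2 * m) → i' < j' → j' < 2 ^ (2 * m) →
      act δ (List.ofFn (word j)) (List.ofFn (word i)) q₀ =
        act δ (List.ofFn (word j')) (List.ofFn (word i')) q₀ := by
    intro i j i' j' h1 h2 h3 h4
    obtain ⟨a, c, d, hcd, e1, e2⟩ := bits_lt (2 * m) i j h1 h2
    obtain ⟨a', c', d', hcd', e1', e2'⟩ := bits_lt (2 * m) i' j' h3 h4
    rw [hact, hact, e1, e2, e1', e2']
    exact hl.const he0 hidem true a d c a' d' c' hcd.symm hcd'.symm q₁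
  let f : Fin (2 ^ (2 * m)) → β := fun i => ν (word i)
  have hf : Function.Injective f := by
    intro i j h
    exact Fin.ext (hwinj i j i.2 j.2 (hν h))
  have hcard : (2 ^ m - 1) * (2 ^ m - 1) < Fintype.card (Fin (2 ^ (2 * m))) := by
    rw [Fintype.card_fin, two_mul, pow_add]
    have : 0 < 2 ^ m := by positivity
    exact Nat.mul_lt_mul'' (by omega) (by omega)
  have main : ∀ t : Finset (Fin (2 ^ (2 * m))), 2 ^ m - 1 < t.card →
      (∀ i ∈ t, ∀ j ∈ t, ∀ i' ∈ t, ∀ j' ∈ t, f i < f j → f i' < f j' →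
        act δ (List.ofFn (word i)) (List.ofFn (word j)) q₀ =
          act δ (List.ofFn (word i')) (List.ofFn (word j')) q₀) →
      ∃ S : Finset (Fin n → A), S.card = 2 ^ m ∧ ∃ q : Q, ∀ x ∈ S, ∀ y ∈ S, ν x < ν y →
        act δ (List.ofFn x) (List.ofFn y) q₀ = q := by
    intro t ht hall
    obtain ⟨t', ht', hc⟩ := Finset.exists_subset_card_eq (show 2 ^ m ≤ t.card by omega)
    refine ⟨t'.image fun i : Fin (2 ^ (2 * m)) => word i, ?_, ?_⟩
    · rw [Finset.card_image_of_injective, hc]
      intro i j h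
      exact hf (congrArg ν h)
    · by_cases hex : ∃ i ∈ t', ∃ j ∈ t', f i < f j
      · obtain ⟨i₀, hi₀, j₀, hj₀, h₀⟩ := hex
        refine ⟨act δ (List.ofFn (word i₀)) (List.ofFn (word j₀)) q₀, fun x hx y hy hxy => ?_⟩
        rw [Finset.mem_image] at hx hy
        obtain ⟨i, hi, rfl⟩ := hx
        obtain ⟨j, hj, rfl⟩ := hy
        exact hall i (ht' hi) j (ht' hj) i₀ (ht' hi₀) j₀ (ht' hj₀) hxy h₀
      · refine ⟨q₀, fun x hx y hy hxy => ?_⟩
        rw [Finset.mem_image] at hx hy
        obtain ⟨i, hi, rfl⟩ := hx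
        obtain ⟨j, hj, rfl⟩ := hy
        exact absurd ⟨i, hi, j, hj, hxy⟩ hex
  rcases Pool.Agent.H184R3.ES.erdos_szekeres hcard hf with ⟨t, ht, hmono⟩ | ⟨t, ht, hanti⟩
  · refine main t ht fun i hi j hj i' hi' j' hj' h h' => ?_
    have h1 : i < j := by
      by_contra hle
      rcases eq_or_lt_of_le (not_lt.1 hle) with h2 | h2
      · rw [h2] at h; exact lt_irrefl _ h
      · exact lt_asymm h (hmono (mem_coe.2 hj) (mem_coe.2 hi) h2)
    have h1' : i' < j' := by
      by_contra hle
      rcases eq_or_lt_of_le (not_lt.1 hle) with h2 | h2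
      · rw [h2] at h'; exact lt_irrefl _ h'
      · exact lt_asymm h' (hmono (mem_coe.2 hj') (mem_coe.2 hi') h2)
    exact hlt i j i' j' h1 j.2 h1' j'.2
  · refine main t ht fun i hi j hj i' hi' j' hj' h h' => ?_
    have h1 : j < i := by
      by_contra hle
      rcases eq_or_lt_of_le (not_lt.1 hle) with h2 | h2
      · rw [h2] at h; exact lt_irrefl _ h
      · exact lt_asymm h (hanti (mem_coe.2 hi) (mem_coe.2 hj) h2)
    have h1' : j' < i' := by
      by_contra hle
      rcases eq_or_lt_of_le (not_lt.1 hle) with h2 | h2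
      · rw [h2] at h'; exact lt_irrefl _ h'
      · exact lt_asymm h' (hanti (mem_coe.2 hi') (mem_coe.2 hj') h2)
    exact hgt j i j' i' h1 i.2 h1' i'.2

end assembly

end Pool.Agent.Q163.AC
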